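import Pool.Agent.L5helper70.GH.Orth

/-!
# Bipartite orthogonality systems
-/

set_option autoImplicit false
set_option linter.unusedVariables false
set_option maxHeartbeats 1000000

open CategoryTheory AlgebraicGeometry MvPolynomial Pool.Agent.Y116.UV Pool.Agent.Z125.UN
  Pool.Agent.L5helper70.QF

namespace Pool.Agent.L5helper70.GH

section

variable {R : Type} [CommRing R] {P : Sch R → Prop} {sep : Prop} {J A B : Type} [Fintype J]
  [DecidableEq J] [Fintype A] [DecidableEq A] [Fintype B] [DecidableEq B]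

/-- Vectors `a` and `b` with prescribed zeros and orthogonality relations. -/
def OS (z : J × A ⊕ J × B → Prop) (T : A → B → Prop) : Cond R (J × A ⊕ J × B) :=
  fun C _ _ v => (∀ i, z i → v i = 0) ∧
    ∀ a b, T a b → ∑ j, v (Sum.inl (j, a)) * v (Sum.inr (j, b)) = 0

omit [DecidableEq J] [DecidableEq A] [DecidableEq B] in
lemma rp_os (z : J × A ⊕ J × B → Prop) (T : A → B → Prop) : Rp (OS (R := R) z T) := by
  refine ((rp_true R (J × A ⊕ J × B)).cls (κ := {i // z i} ⊕ {q : A × B // T q.1 q.2})
    (Sum.elim (fun i => X i.1)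
      fun q => ∑ j, X (Sum.inl (j, q.1.1)) * X (Sum.inr (j, q.1.2)))).congr ?_
  intro C _ _ v
  simp only [Sum.forall, Sum.elim_inl, Sum.elim_inr, Subtype.forall, Prod.forall, map_sum,
    map_mul, aeval_X, OS, true_and]

variable (hP : Bnd sep P)

include hP

lemma dropunits (hX : Sec P) {σ τ : Type} [Fintype τ] {Φ : Cond R σ} (hr : Rp Φ)
    (h : Pr P (fun C _ _ v => Φ C (fun s => v (Sum.inl s)) ∧ ∀ i, IsUnit (v (Sum.inr i)) :
      Cond R (σ ⊕ τ))) : Pr P Φ := by
  refine Pr.sect hP hX hr (∏ i, X (Sum.inr i)) (fun _ => 1) ?_ (h.congr ?_)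
  · intro C _ _ v _
    simp only [map_prod, aeval_X, Sum.elim_inr, map_one, Finset.prod_const_one]
    exact isUnit_one
  · intro C _ _ v
    simp only [map_prod, aeval_X, IsUnit.prod_univ_iff]

/-- the allowed positions -/
def bS (z : J × A ⊕ J × B → Prop) : J → J ⊕ (A ⊕ B) → Prop := fun j =>
  Sum.elim (fun j' => j = j') (Sum.elim (fun a => ¬ z (Sum.inl (j, a)))
    fun b => ¬ z (Sum.inr (j, b)))

/-- the pairs without relation -/
def bT (T : A → B → Prop) : J ⊕ (A ⊕ B) → J ⊕ (A ⊕ B) → Prop
  | Sum.inr (Sum.inl a), Sum.inr (Sum.inr b) => ¬ T a b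
  | Sum.inr (Sum.inr b), Sum.inr (Sum.inl a) => ¬ T a b
  | _, _ => True

theorem pr_os (hX : Sec P) (hY : GC (R := R) P) (z : J × A ⊕ J × B → Prop) (T : A → B → Prop) :
    Pr P (OS (R := R) z T) := by
  have h1 := pr_bs hP hX hY (p := (Sum.inl : J → J ⊕ (A ⊕ B))) (bS z) (bT T)
    (by rintro (j | a | b) <;> exact trivial)
    (by
      rintro (j | a | b) (j' | a' | b') h
      · exact trivial
      · exact trivial
      · exact trivial
      · exact trivial
      · exact trivial
      · exact h
      · exact trivial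
      · exact h
      · exact trivial) (fun j j' h => h)
  refine dropunits hP hX (τ := J ⊕ J) (rp_os z T) ?_
  refine h1.push (Sum.elim (Sum.elim
    (fun q => X (Sum.inl q.1) * X (Sum.inr (q.1, Sum.inr (Sum.inl q.2))))
    (fun q => X (Sum.inr (q.1, Sum.inr (Sum.inr q.2)))))
    (Sum.elim (fun j => X (Sum.inl j)) fun j => X (Sum.inr (j, Sum.inl j)))) ?_ ?_ ?_
  · intro C _ _ v hv
    obtain ⟨h2, h3, h4, h5⟩ := hv
    refine ⟨⟨?_, ?_⟩, ?_⟩
    · rintro (⟨j, a⟩ | ⟨j, b⟩) hz
      · simp only [Sum.elim_inl, map_mul, aeval_X]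
        rw [h3 j (Sum.inr (Sum.inl a)) fun h => h hz, mul_zero]
      · simp only [Sum.elim_inl, Sum.elim_inr, aeval_X]
        exact h3 j (Sum.inr (Sum.inr b)) fun h => h hz
    · intro a b hab
      simp only [Sum.elim_inl, Sum.elim_inr, map_mul, aeval_X]
      have h6 := h5 (Sum.inr (Sum.inl a)) (Sum.inr (Sum.inr b)) fun h => h hab
      rw [← h6]
      apply Finset.sum_congr rfl
      intro j _
      ring
    · rintro (j | j)
      · simp only [Sum.elim_inl, Sum.elim_inr, aeval_X]
        exact h2 j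
      · simp only [Sum.elim_inr, aeval_X]
        exact h4 j
  · intro C _ _ v w hv hw h
    have ed : ∀ j, v (Sum.inl j) = w (Sum.inl j) := by
      intro j
      simpa only [Sum.elim_inl, Sum.elim_inr, aeval_X] using h (Sum.inr (Sum.inl j))
    funext s
    rcases s with j | ⟨j, (j' | a | b)⟩
    · exact ed j
    · by_cases hj : j = j'
      · subst hj
        simpa only [Sum.elim_inr, aeval_X] using h (Sum.inr (Sum.inr j))
      · rw [hv.2.1 j (Sum.inl j') hj, hw.2.1 j (Sum.inl j') hj]
    · have h6 := h (Sum.inl (Sum.inl (j, a)))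
      simp only [Sum.elim_inl, map_mul, aeval_X] at h6
      rw [← ed j] at h6
      exact (hv.1 j).mul_left_cancel h6
    · simpa only [Sum.elim_inl, Sum.elim_inr, aeval_X] using h (Sum.inl (Sum.inr (j, b)))
  · intro C _ _ v hv
    obtain ⟨⟨h2, h3⟩, h4⟩ := hv
    choose δ hδ using fun j => (h4 (Sum.inl j)).exists_right_inv
    refine ⟨Sum.elim (fun j => v (Sum.inr (Sum.inl j))) fun q => Sum.elim
      (fun j' => if q.1 = j' then v (Sum.inr (Sum.inr j')) else 0)
      (Sum.elim (fun a => δ q.1 * v (Sum.inl (Sum.inl (q.1, a))))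
        fun b => v (Sum.inl (Sum.inr (q.1, b)))) q.2, ⟨fun j => h4 (Sum.inl j), ?_, ?_, ?_⟩, ?_⟩
    · rintro j (j' | a | b) hjk
      · simp only [Sum.elim_inr, Sum.elim_inl]
        exact if_neg hjk
      · simp only [Sum.elim_inr, Sum.elim_inl]
        have h6 : v (Sum.inl (Sum.inl (j, a))) = 0 := h2 (Sum.inl (j, a)) (not_not.mp hjk)
        rw [h6, mul_zero]
      · simp only [Sum.elim_inr]
        exact h2 (Sum.inr (j, b)) (not_not.mp hjk)
    · intro j
      simp only [Sum.elim_inr, Sum.elim_inl, if_true]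
      exact h4 (Sum.inr j)
    · rintro (j' | a | b) (j'' | a' | b') hkk
      · exact absurd trivial hkk
      · exact absurd trivial hkk
      · exact absurd trivial hkk
      · exact absurd trivial hkk
      · exact absurd trivial hkk
      · simp only [Sum.elim_inr, Sum.elim_inl]
        rw [← h3 a b' (not_not.mp hkk)]
        apply Finset.sum_congr rfl
        intro j _
        linear_combination v (Sum.inl (Sum.inl (j, a))) * v (Sum.inl (Sum.inr (j, b'))) * hδ j
      · exact absurd trivial hkk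
      · simp only [Sum.elim_inr, Sum.elim_inl]
        rw [← h3 a' b (not_not.mp hkk)]
        apply Finset.sum_congr rfl
        intro j _
        linear_combination v (Sum.inl (Sum.inl (j, a'))) * v (Sum.inl (Sum.inr (j, b))) * hδ j
      · exact absurd trivial hkk
    · rintro ((⟨j, a⟩ | ⟨j, b⟩) | (j | j))
      · simp only [Sum.elim_inr, Sum.elim_inl, map_mul, aeval_X]
        rw [← mul_assoc, hδ, one_mul]
      · simp only [Sum.elim_inr, Sum.elim_inl, aeval_X]
      · simp only [Sum.elim_inr, Sum.elim_inl, aeval_X]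
      · simp only [Sum.elim_inr, Sum.elim_inl, aeval_X, if_true]

/-- Orthogonality systems with prescribed zeros and invertible entries. -/
theorem pr_osu (hX : Sec P) (hY : GC (R := R) P) (T : A → B → Prop)
    (W : Finset (J × A ⊕ J × B)) : ∀ z : J × A ⊕ J × B → Prop,
    Pr P (fun C _ _ v => OS (R := R) z T C v ∧ ∀ i ∈ W, IsUnit (v i) :
      Cond R (J × A ⊕ J × B)) := by
  classical
  induction W using Finset.induction_on with
  | empty =>
    intro z
    refine (pr_os hP hX hY z T).congr ?_
    intro C _ _ v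
    simp only [Finset.notMem_empty, false_implies, implies_true, and_true]
  | insert i W hi ih =>
    intro z
    have h1 := ih fun i' => z i' ∨ i' = i
    refine ((ih z).opn hP (X i) (h1.congr ?_)).congr ?_
    · intro C _ _ v
      rw [aeval_X]
      constructor
      · rintro ⟨⟨h2, h3⟩, h4⟩
        exact ⟨⟨⟨fun i' hi' => h2 i' (Or.inl hi'), h3⟩, h4⟩, h2 i (Or.inr rfl)⟩
      · rintro ⟨⟨⟨h2, h3⟩, h4⟩, h5⟩
        refine ⟨⟨?_, h3⟩, h4⟩
        rintro i' (hi' | rfl)
        · exact h2 i' hi'
        · exact h5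
    · intro C _ _ v
      rw [aeval_X]
      simp only [Finset.mem_insert, forall_eq_or_imp]
      constructor
      · rintro ⟨⟨h2, h3⟩, h4⟩
        exact ⟨h2, h4, h3⟩
      · rintro ⟨h2, h4, h3⟩
        exact ⟨⟨h2, h3⟩, h4⟩

end

end Pool.Agent.L5helper70.GH
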