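import Pool.Agent.L5helper70.GH.Sect

/-!
# Pairs of inverse symmetric matrices with prescribed zeros
-/

set_option autoImplicit false
set_option linter.unusedVariables false

open CategoryTheory AlgebraicGeometry MvPolynomial Pool.Agent.Y116.UV Pool.Agent.Z125.UN
  Pool.Agent.L5helper70.QF

open scoped Matrix

namespace Pool.Agent.L5helper70.GH

section matrix

variable {C : Type} [CommRing C] {V K : Type} [Fintype V] [DecidableEq V] [Fintype K]
  [DecidableEq K]

/-- the matrix with the Schur complement `S` -/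
def bM (M : Matrix V V C) (B : Matrix V K C) (S : Matrix K K C) : Matrix (V ⊕ K) (V ⊕ K) C :=
  Matrix.fromBlocks M (M * B) (Bᵀ * M) (S + Bᵀ * M * B)

/-- its inverse -/
def bG (G : Matrix V V C) (B : Matrix V K C) (T : Matrix K K C) : Matrix (V ⊕ K) (V ⊕ K) C :=
  Matrix.fromBlocks (G + B * T * Bᵀ) (-(B * T)) (-(T * Bᵀ)) T

lemma bM_mul_bG {M G : Matrix V V C} {B : Matrix V K C} {S T : Matrix K K C} (h : M * G = 1)
    (hS : S * T = 1) : bM M B S * bG G B T = 1 := by
  rw [bM, bG, Matrix.fromBlocks_multiply, ← Matrix.fromBlocks_one]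
  congr 1
  · rw [Matrix.mul_add, h, Matrix.mul_neg, Matrix.mul_assoc M B, ← Matrix.mul_assoc B T]
    abel
  · rw [Matrix.mul_neg, Matrix.mul_assoc M B]
    abel
  · rw [Matrix.mul_add, Matrix.mul_assoc, h, Matrix.mul_one, Matrix.mul_neg, Matrix.add_mul,
      ← Matrix.mul_assoc S, hS, Matrix.one_mul]
    simp only [Matrix.mul_assoc]
    abel
  · rw [Matrix.mul_neg, Matrix.add_mul, hS]
    simp only [Matrix.mul_assoc]
    abel

/-- the inverse of a symmetric matrix is symmetric -/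
lemma inv_symm {M G : Matrix V V C} (hM : Mᵀ = M) (h : M * G = 1) : Gᵀ = G := by
  have h1 : Gᵀ * M = 1 := by
    rw [← hM, ← Matrix.transpose_mul, h, Matrix.transpose_one]
  exact left_inv_eq_right_inv h1 h

lemma inv_uniq {M G H : Matrix V V C} (h : M * G = 1) (h' : M * H = 1) : G = H := by
  have h1 : G * M = 1 := mul_eq_one_comm.mp h
  exact left_inv_eq_right_inv h1 h'

/-- the decomposition of a matrix with an invertible block of the inverse -/
lemma exists_blocks {N H : Matrix (V ⊕ K) (V ⊕ K) C} (hN : Nᵀ = N) (hNH : N * H = 1)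
    {S T : Matrix K K C} (hT : H.toBlocks₂₂ = T) (hS : S * T = 1) :
    ∃ (M G : Matrix V V C) (B : Matrix V K C), Mᵀ = M ∧ M * G = 1 ∧ M = N.toBlocks₁₁ ∧
      N = bM M B S ∧ H = bG G B T := by
  have hTS : T * S = 1 := mul_eq_one_comm.mp hS
  have hH := inv_symm hN hNH
  have eN := Matrix.fromBlocks_toBlocks N
  have eH := Matrix.fromBlocks_toBlocks H
  have e1 := hNH
  rw [← eN, ← eH, Matrix.fromBlocks_multiply, ← Matrix.fromBlocks_one, Matrix.fromBlocks_inj]
    at e1
  obtain ⟨h11, h12, h21, h22⟩ := e1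
  have e2 := hN
  rw [← eN, Matrix.fromBlocks_transpose, Matrix.fromBlocks_inj] at e2
  obtain ⟨n11, n21, n12, n22⟩ := e2
  have e3 := hH
  rw [← eH, Matrix.fromBlocks_transpose, Matrix.fromBlocks_inj] at e3
  obtain ⟨k11, k21, k12, k22⟩ := e3
  rw [hT] at h12 h22 k22
  let B : Matrix V K C := -(H.toBlocks₁₂ * S)
  have hB : B * T = -H.toBlocks₁₂ := by
    change -(H.toBlocks₁₂ * S) * T = _
    rw [Matrix.neg_mul, Matrix.mul_assoc, hS, Matrix.mul_one]
  have hB' : T * Bᵀ = -H.toBlocks₂₁ := by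
    have h := congrArg Matrix.transpose hB
    rw [Matrix.transpose_mul, k22] at h
    exact h.trans (by rw [Matrix.transpose_neg, k12])
  have hMB : N.toBlocks₁₂ = N.toBlocks₁₁ * B := by
    have h : N.toBlocks₁₂ * T = -(N.toBlocks₁₁ * H.toBlocks₁₂) := by
      rw [eq_neg_iff_add_eq_zero, add_comm]
      exact h12
    calc N.toBlocks₁₂ = N.toBlocks₁₂ * T * S := by rw [Matrix.mul_assoc, hTS, Matrix.mul_one]
      _ = N.toBlocks₁₁ * B := by
        rw [h]
        change _ = N.toBlocks₁₁ * -(H.toBlocks₁₂ * S)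
        rw [Matrix.mul_neg, Matrix.neg_mul, Matrix.mul_assoc]
  have hBM : N.toBlocks₂₁ = Bᵀ * N.toBlocks₁₁ := by
    rw [← n12, hMB, Matrix.transpose_mul, n11]
  refine ⟨N.toBlocks₁₁, H.toBlocks₁₁ - B * T * Bᵀ, B, n11, ?_, rfl, ?_, ?_⟩
  · rw [Matrix.mul_sub, ← Matrix.mul_assoc, ← Matrix.mul_assoc, ← hMB, Matrix.mul_assoc, hB',
      Matrix.mul_neg, sub_neg_eq_add]
    exact h11
  · rw [bM, ← hMB, ← hBM]
    have h : N.toBlocks₂₂ = S + N.toBlocks₂₁ * B := by
      have h4 : N.toBlocks₂₂ * T = 1 - N.toBlocks₂₁ * H.toBlocks₁₂ := by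
        rw [eq_sub_iff_add_eq, add_comm]
        exact h22
      calc N.toBlocks₂₂ = N.toBlocks₂₂ * T * S := by rw [Matrix.mul_assoc, hTS, Matrix.mul_one]
        _ = S + N.toBlocks₂₁ * B := by
          rw [h4, Matrix.sub_mul, Matrix.one_mul]
          change _ = S + N.toBlocks₂₁ * -(H.toBlocks₁₂ * S)
          rw [Matrix.mul_neg, Matrix.mul_assoc, sub_eq_add_neg]
    rw [← h]
    exact eN.symm
  · rw [bG, hB, hB', neg_neg, neg_neg, Matrix.neg_mul, ← hT]
    have h : H.toBlocks₁₁ - -(H.toBlocks₁₂ * Bᵀ) + -(H.toBlocks₁₂ * Bᵀ) = H.toBlocks₁₁ := by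
      abel
    rw [h]
    exact eH.symm

omit [DecidableEq V] [Fintype K] [DecidableEq K] in
lemma map_bM {C' : Type} [CommRing C'] (f : C →+* C') (M : Matrix V V C) (B : Matrix V K C)
    (S : Matrix K K C) : (bM M B S).map f = bM (M.map f) (B.map f) (S.map f) := by
  rw [bM, bM, Matrix.fromBlocks_map, Matrix.map_add f (map_add f)]
  simp only [Matrix.map_mul, Matrix.transpose_map]

omit [Fintype V] [DecidableEq V] [DecidableEq K] in
lemma map_bG {C' : Type} [CommRing C'] (f : C →+* C') (G : Matrix V V C) (B : Matrix V K C)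
    (T : Matrix K K C) : (bG G B T).map f = bG (G.map f) (B.map f) (T.map f) := by
  rw [bG, bG, Matrix.fromBlocks_map, Matrix.map_add f (map_add f), Matrix.map_neg f (map_neg f),
    Matrix.map_neg f (map_neg f)]
  simp only [Matrix.map_mul, Matrix.transpose_map]

end matrix

section

variable {R : Type} [CommRing R]

/-- the first matrix -/
def mx {C V : Type} (v : V × V ⊕ V × V → C) : Matrix V V C := fun i j => v (Sum.inl (i, j))

/-- the second matrix -/
def gx {C V : Type} (v : V × V ⊕ V × V → C) : Matrix V V C := fun i j => v (Sum.inr (i, j))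

/-- the point given by two matrices -/
def mg {C V : Type} (M G : Matrix V V C) : V × V ⊕ V × V → C :=
  Sum.elim (fun p => M p.1 p.2) fun p => G p.1 p.2

lemma mg_mx_gx {C V : Type} (v : V × V ⊕ V × V → C) : mg (mx v) (gx v) = v := by
  funext s
  rcases s with ⟨i, j⟩ | ⟨i, j⟩ <;> rfl

@[simp] lemma mx_mg {C V : Type} (M G : Matrix V V C) : mx (mg M G) = M := rfl

@[simp] lemma gx_mg {C V : Type} (M G : Matrix V V C) : gx (mg M G) = G := rfl

/-- Pairs of inverse symmetric matrices `M`, `G`; the entries of `M` outside of `E` vanish, and the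
entries of `G` in `Zs × T` vanish. -/
def IP {V : Type} [Fintype V] [DecidableEq V] (E : V → V → Prop) (Zs T : V → Prop) :
    Cond R (V × V ⊕ V × V) :=
  fun C _ _ v => (mx v)ᵀ = mx v ∧ (∀ i j, ¬ E i j → mx v i j = 0) ∧ mx v * gx v = 1 ∧
    ∀ p q, Zs p → T q → gx v p q = 0

/-- the pattern on the union of two blocks -/
def sE {V K : Type} (E : V → V → Prop) : V ⊕ K → V ⊕ K → Prop
  | Sum.inl i, Sum.inl j => E i j
  | _, _ => True

/-- the block `B` -/
def bx {σ V K ρ C : Type} (v : (σ ⊕ V × K) ⊕ ρ → C) : Matrix V K C :=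
  fun i j => v (Sum.inl (Sum.inr (i, j)))

/-- the value of a matrix of polynomials -/
noncomputable def em {K ρ : Type} (S : Matrix K K (MvPolynomial ρ R)) {C : Type} [CommRing C]
    [Algebra R C] (v : ρ → C) : Matrix K K C := fun i j => aeval v (S i j)

/-- A parametrization of the invertible symmetric `K × K` matrices with the property `Λ`. -/
structure Shape (P : Sch R → Prop) (K ρ : Type) [Fintype K] [DecidableEq K] (Ω : Cond R ρ)
    (S T : Matrix K K (MvPolynomial ρ R))
    (Λ : ∀ (C : Type) [CommRing C] [Algebra R C], Matrix K K C → Prop) : Prop where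
  prod : ∀ {σ : Type} {Φ : Cond R σ}, Pr P Φ → Pr P (fun C _ _ v => Φ C (fun s => v (Sum.inl s)) ∧
    Ω C (fun s => v (Sum.inr s)) : Cond R (σ ⊕ ρ))
  inv : ∀ (C : Type) [CommRing C] [Algebra R C] (v : ρ → C), Ω C v →
    em S v * em T v = 1
  symS : ∀ (C : Type) [CommRing C] [Algebra R C] (v : ρ → C), Ω C v →
    (em S v)ᵀ = em S v
  symT : ∀ (C : Type) [CommRing C] [Algebra R C] (v : ρ → C), Ω C v →
    (em T v)ᵀ = em T v
  shape : ∀ (C : Type) [CommRing C] [Algebra R C] (v : ρ → C), Ω C v → Λ C (em T v)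
  surj : ∀ (C : Type) [CommRing C] [Algebra R C] (T₀ : Matrix K K C), T₀ᵀ = T₀ → Λ C T₀ →
    ∃ v, Ω C v ∧ em T v = T₀
  inj : ∀ (C : Type) [CommRing C] [Algebra R C] (v w : ρ → C), Ω C v → Ω C w →
    em T v = em T w → v = w

variable {P : Sch R → Prop} {sep : Prop} (hP : Bnd sep P)

include hP

/-- the decomposition of the pairs of inverse matrices with an invertible block -/
theorem blk {V K ρ : Type} [Fintype V] [DecidableEq V] [Fintype K] [DecidableEq K]
    {Ω : Cond R ρ} {S T : Matrix K K (MvPolynomial ρ R)}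
    {Λ : ∀ (C : Type) [CommRing C] [Algebra R C], Matrix K K C → Prop} (hS : Shape P K ρ Ω S T Λ)
    {E : V → V → Prop} {Zs Ts : V → Prop} (h : Pr P (IP (R := R) E Zs Ts)) (Y : K → V → Prop)
    (z : V → K → Prop)
    (hz : ∀ (C : Type) [CommRing C] [Algebra R C] (T₀ : Matrix K K C) (B : Matrix V K C),
      T₀ᵀ = T₀ → Λ C T₀ → (∀ q κ, Zs q → B q κ = 0) →
        ((∀ κ q, Y κ q → (T₀ * Bᵀ) κ q = 0) ↔ ∀ q κ, z q κ → B q κ = 0)) :
    Pr P (fun C _ _ v => IP (R := R) (sE E) (Sum.elim Zs fun _ => False)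
      (Sum.elim Ts fun _ => True) C v ∧
      Λ C (gx v).toBlocks₂₂ ∧ ∀ κ q, Y κ q → gx v (Sum.inr κ) (Sum.inl q) = 0 :
        Cond R ((V ⊕ K) × (V ⊕ K) ⊕ (V ⊕ K) × (V ⊕ K))) := by
  have h1 := hS.prod (addfree hP h (ρ := V × K) fun p => Zs p.1 ∨ z p.1 p.2)
  let τ := ((V × V ⊕ V × V) ⊕ V × K) ⊕ ρ
  -- the generic matrices
  let Mg : Matrix V V (MvPolynomial τ R) := fun i j => X (Sum.inl (Sum.inl (Sum.inl (i, j))))
  let Gg : Matrix V V (MvPolynomial τ R) := fun i j => X (Sum.inl (Sum.inl (Sum.inr (i, j))))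
  let Bg : Matrix V K (MvPolynomial τ R) := fun i j => X (Sum.inl (Sum.inr (i, j)))
  let Sg : Matrix K K (MvPolynomial τ R) := S.map (rename Sum.inr)
  let Tg : Matrix K K (MvPolynomial τ R) := T.map (rename Sum.inr)
  have hev : ∀ (C : Type) [CommRing C] [Algebra R C] (v : τ → C),
      (fun s => aeval v (mg (bM Mg Bg Sg) (bG Gg Bg Tg) s)) =
        mg (bM (mx fun s => v (Sum.inl (Sum.inl s))) (bx v)
          (em S fun s => v (Sum.inr s)))
          (bG (gx fun s => v (Sum.inl (Sum.inl s))) (bx v)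
          (em T fun s => v (Sum.inr s))) := by
    intro C _ _ v
    have e1 := map_bM (aeval v : MvPolynomial τ R →ₐ[R] C).toRingHom Mg Bg Sg
    have e2 := map_bG (aeval v : MvPolynomial τ R →ₐ[R] C).toRingHom Gg Bg Tg
    have e3 : Mg.map (aeval v : MvPolynomial τ R →ₐ[R] C).toRingHom =
        mx fun s => v (Sum.inl (Sum.inl s)) := by
      ext i j
      exact aeval_X _ _
    have e4 : Gg.map (aeval v : MvPolynomial τ R →ₐ[R] C).toRingHom =
        gx fun s => v (Sum.inl (Sum.inl s)) := by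
      ext i j
      exact aeval_X _ _
    have e5 : Bg.map (aeval v : MvPolynomial τ R →ₐ[R] C).toRingHom =
        bx v := by
      ext i j
      exact aeval_X _ _
    have e6 : Sg.map (aeval v : MvPolynomial τ R →ₐ[R] C).toRingHom =
        em S fun s => v (Sum.inr s) := by
      ext i j
      exact aeval_rename _ _ _
    have e7 : Tg.map (aeval v : MvPolynomial τ R →ₐ[R] C).toRingHom =
        (em T fun s => v (Sum.inr s)) := by
      ext i j
      exact aeval_rename _ _ _
    rw [e3, e5, e6] at e1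
    rw [e4, e5, e7] at e2
    rw [← e1, ← e2]
    funext s
    rcases s with ⟨i, j⟩ | ⟨i, j⟩ <;> rfl
  refine h1.push (mg (bM Mg Bg Sg) (bG Gg Bg Tg)) ?_ ?_ ?_
  · intro C _ _ v hv
    rw [hev]
    obtain ⟨⟨⟨hM, hE, hMG, hZ⟩, hB⟩, hΩ⟩ := hv
    have hinv := hS.inv C _ hΩ
    have hTs := hS.symT C _ hΩ
    have hB1 : ∀ q κ, Zs q → bx v q κ = 0 := fun q κ hq => hB (q, κ) (Or.inl hq)
    refine ⟨⟨?_, ?_, ?_, ?_⟩, ?_, ?_⟩
    · rw [mx_mg, bM, Matrix.fromBlocks_transpose, hM]
      congr 1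
      · rw [Matrix.transpose_mul, Matrix.transpose_transpose, hM]
      · rw [Matrix.transpose_mul, hM]
      · rw [Matrix.transpose_add, hS.symS C _ hΩ, Matrix.transpose_mul, Matrix.transpose_mul,
          Matrix.transpose_transpose, hM, Matrix.mul_assoc]
    · rintro (i | i) (j | j) hij
      · exact hE i j hij
      · exact absurd trivial hij
      · exact absurd trivial hij
      · exact absurd trivial hij
    · rw [mx_mg, gx_mg]
      exact bM_mul_bG hMG hinv
    · have hBT : ∀ p, Zs p → ∀ κ, (bx v *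
          (em T fun s => v (Sum.inr s))) p κ = 0 := by
        intro p hp κ
        rw [Matrix.mul_apply]
        exact Finset.sum_eq_zero fun j _ => by rw [hB1 p j hp, zero_mul]
      rintro (p | p) (q | q) hp hq
      · rw [gx_mg, bG, Matrix.fromBlocks_apply₁₁, Matrix.add_apply, Matrix.mul_apply]
        have h3 := hZ p q hp hq
        rw [h3, zero_add]
        exact Finset.sum_eq_zero fun j _ => by rw [hBT p hp j, zero_mul]
      · rw [gx_mg, bG, Matrix.fromBlocks_apply₁₂, Matrix.neg_apply, hBT p hp q, neg_zero]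
      · exact hp.elim
      · exact hp.elim
    · rw [gx_mg, bG, Matrix.toBlocks_fromBlocks₂₂]
      exact hS.shape C _ hΩ
    · intro κ q hκ
      rw [gx_mg, bG, Matrix.fromBlocks_apply₂₁, Matrix.neg_apply, neg_eq_zero]
      exact (hz C _ _ hTs (hS.shape C _ hΩ) hB1).mpr (fun q κ hq => hB (q, κ) (Or.inr hq)) κ q hκ
  · intro C _ _ v w hv hw hvw
    have hvw : mg (bM Mg Bg Sg) (bG Gg Bg Tg) = mg (bM Mg Bg Sg) (bG Gg Bg Tg) → (fun s => aeval v
        (mg (bM Mg Bg Sg) (bG Gg Bg Tg) s)) = fun s => aeval w (mg (bM Mg Bg Sg)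
          (bG Gg Bg Tg) s) := fun _ => funext hvw
    have hvw := hvw rfl
    rw [hev, hev] at hvw
    obtain ⟨⟨⟨hM, hE, hMG, hZ⟩, hB⟩, hΩ⟩ := hv
    obtain ⟨⟨⟨hM', hE', hMG', hZ'⟩, hB'⟩, hΩ'⟩ := hw
    have e1 := congrArg mx hvw
    have e2 := congrArg gx hvw
    rw [mx_mg, mx_mg, bM, bM, Matrix.fromBlocks_inj] at e1
    rw [gx_mg, gx_mg, bG, bG, Matrix.fromBlocks_inj] at e2
    have eM := e1.1
    have eG : (gx fun s => v (Sum.inl (Sum.inl s))) = gx fun s => w (Sum.inl (Sum.inl s)) := by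
      rw [← eM] at hMG'
      exact inv_uniq hMG hMG'
    have eB : bx v =
        bx w := by
      have h3 := e1.2.1
      rw [← eM] at h3
      have h4 := congrArg (fun A => (gx fun s => v (Sum.inl (Sum.inl s))) * A) h3
      simp only [← Matrix.mul_assoc, mul_eq_one_comm.mp hMG, Matrix.one_mul] at h4
      exact h4
    have eT := hS.inj C _ _ hΩ hΩ' e2.2.2.2
    funext s
    rcases s with ((⟨i, j⟩ | ⟨i, j⟩) | ⟨i, j⟩) | s
    · exact congrFun (congrFun eM i) j
    · exact congrFun (congrFun eG i) j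
    · exact congrFun (congrFun eB i) j
    · exact congrFun eT s
  · intro C _ _ v' hv'
    obtain ⟨⟨hN, hE, hNH, hZ⟩, hΛ, hY⟩ := hv'
    have hH := inv_symm hN hNH
    have hT22 : ((gx v').toBlocks₂₂)ᵀ = (gx v').toBlocks₂₂ := by
      have e3 := hH
      rw [← Matrix.fromBlocks_toBlocks (gx v'), Matrix.fromBlocks_transpose,
        Matrix.fromBlocks_inj] at e3
      exact e3.2.2.2
    obtain ⟨r, hr, hrT⟩ := hS.surj C _ hT22 hΛ
    obtain ⟨M, G, B, hM, hMG, hM11, hNe, hHe⟩ := exists_blocks hN hNH hrT.symm (hS.inv C r hr)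
    have hBT : ∀ p κ, Zs p → (B * em T r) p κ = 0 := by
      intro p κ hp
      have h3 := hZ (Sum.inl p) (Sum.inr κ) hp trivial
      rw [hHe, bG, Matrix.fromBlocks_apply₁₂, Matrix.neg_apply, neg_eq_zero] at h3
      exact h3
    have hTS : em T r * em S r = 1 := mul_eq_one_comm.mp (hS.inv C r hr)
    have hB0 : ∀ p κ, Zs p → B p κ = 0 := by
      intro p κ hp
      have h3 : B = B * em T r * em S r := by
        rw [Matrix.mul_assoc, hTS, Matrix.mul_one]
      rw [h3, Matrix.mul_apply]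
      exact Finset.sum_eq_zero fun j _ => by rw [hBT p j hp, zero_mul]
    refine ⟨Sum.elim (Sum.elim (mg M G) fun p => B p.1 p.2) r, ⟨⟨⟨?_, ?_, ?_, ?_⟩, ?_⟩, ?_⟩, ?_⟩
    · exact hM
    · intro i j hij
      change M i j = 0
      rw [hM11]
      exact hE (Sum.inl i) (Sum.inl j) hij
    · exact hMG
    · intro p q hp hq
      change G p q = 0
      have h3 := hZ (Sum.inl p) (Sum.inl q) hp hq
      rw [hHe, bG, Matrix.fromBlocks_apply₁₁, Matrix.add_apply, Matrix.mul_apply] at h3
      rw [← h3]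
      have h4 : ∑ j, (B * em T r) p j * Bᵀ j q = 0 :=
        Finset.sum_eq_zero fun j _ => by rw [hBT p j hp, zero_mul]
      rw [h4, add_zero]
    · rintro ⟨p, κ⟩ (hp | hp)
      · exact hB0 p κ hp
      · change B p κ = 0
        refine (hz C _ _ (hS.symT C r hr) (hS.shape C r hr) hB0).mp ?_ p κ hp
        intro κ q hκ
        have h3 := hY κ q hκ
        rw [hHe, bG, Matrix.fromBlocks_apply₂₁, Matrix.neg_apply, neg_eq_zero] at h3
        exact h3
    · exact hr
    · intro s
      have h3 := congrFun (hev C (Sum.elim (Sum.elim (mg M G) fun p => B p.1 p.2) r)) s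
      refine h3.trans ?_
      have h4 : mg (mx v') (gx v') s = v' s := congrFun (mg_mx_gx v') s
      rw [← h4, hNe, hHe]
      rfl

end

end Pool.Agent.L5helper70.GH
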