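import Pool.Agent.L5helper70.GH.Strat

/-!
# Matrices of given corank
-/

set_option autoImplicit false
set_option linter.unusedVariables false

open scoped Matrix

namespace Pool.Agent.L5helper70.GH

variable {C : Type} [CommRing C] {I J K : Type} [Fintype I] [DecidableEq I] [Fintype J]
  [DecidableEq J] [Fintype K] [DecidableEq K]

lemma corank_fwd {N : Matrix I I C} {X : Matrix I K C} {X' : Matrix K I C} {Z : Matrix K K C}
    {U : Matrix I K C} (hNU : N * U = 0) {W : Matrix K I C} (hU : W * U = 1)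
    {G : Matrix (I ⊕ K) (I ⊕ K) C} (h : Matrix.fromBlocks N X X' Z * G = 1) :
    G.toBlocks₂₂ = 0 := by
  have h1 : G * Matrix.fromBlocks N X X' Z = 1 := mul_eq_one_comm.mp h
  rw [← Matrix.fromBlocks_toBlocks G, Matrix.fromBlocks_multiply, ← Matrix.fromBlocks_one,
    Matrix.fromBlocks_inj] at h1
  obtain ⟨h11, h12, h21, h22⟩ := h1
  have e1 : G.toBlocks₂₂ * (X' * U) = 0 := by
    have h2 := congrArg (fun A => A * U) h21
    simp only [Matrix.add_mul, Matrix.mul_assoc, hNU, Matrix.mul_zero, Matrix.zero_mul,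
      zero_add] at h2
    exact h2
  have e2 : G.toBlocks₁₂ * (X' * U) = U := by
    have h2 := congrArg (fun A => A * U) h11
    simp only [Matrix.add_mul, Matrix.mul_assoc, hNU, Matrix.mul_zero, Matrix.one_mul,
      zero_add] at h2
    exact h2
  have e3 : (W * G.toBlocks₁₂) * (X' * U) = 1 := by
    rw [Matrix.mul_assoc, e2, hU]
  have e4 : (X' * U) * (W * G.toBlocks₁₂) = 1 := mul_eq_one_comm.mp e3
  calc G.toBlocks₂₂ = G.toBlocks₂₂ * ((X' * U) * (W * G.toBlocks₁₂)) := by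
        rw [e4, Matrix.mul_one]
    _ = 0 := by rw [← Matrix.mul_assoc, e1, Matrix.zero_mul]

lemma corank_bwd {M G : Matrix ((J ⊕ K) ⊕ K) ((J ⊕ K) ⊕ K) C} (h : M * G = 1)
    (h22 : G.toBlocks₂₂ = 0) (p : J → K) (y : J → C)
    (hp : ∀ j j', M (Sum.inl (Sum.inl j)) (Sum.inl (Sum.inr (p j'))) * y j' =
      if j = j' then 1 else 0) :
    ∃ Λ : Matrix K J C, ∀ k i, M (Sum.inl (Sum.inr k)) (Sum.inl i) =
      ∑ j, Λ k j * M (Sum.inl (Sum.inl j)) (Sum.inl i) := by
  have h1 := h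
  rw [← Matrix.fromBlocks_toBlocks G, ← Matrix.fromBlocks_toBlocks M, Matrix.fromBlocks_multiply,
    ← Matrix.fromBlocks_one, Matrix.fromBlocks_inj, h22] at h1
  obtain ⟨h11, h12, h21, h2⟩ := h1
  rw [Matrix.mul_zero, add_zero] at h12 h2
  let N := M.toBlocks₁₁
  let U := G.toBlocks₁₂
  let Pm : Matrix (J ⊕ K) J C := fun i j => if i = Sum.inr (p j) then y j else 0
  let NJ : Matrix J (J ⊕ K) C := fun j i => N (Sum.inl j) i
  let NK : Matrix K (J ⊕ K) C := fun k i => N (Sum.inr k) i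
  have a1 : NJ * Pm = 1 := by
    ext j j'
    rw [Matrix.mul_apply, Matrix.one_apply]
    have h3 : ∀ i, NJ j i * Pm i j' = if i = Sum.inr (p j') then NJ j i * y j' else 0 := by
      intro i
      change NJ j i * (if i = Sum.inr (p j') then y j' else 0) = _
      rw [mul_ite, mul_zero]
    simp only [h3, Finset.sum_ite_eq', Finset.mem_univ, if_true]
    exact hp j j'
  have a2 : NJ * U = 0 := by
    ext j k
    exact congrFun (congrFun h12 (Sum.inl j)) k
  have a3 : NK * U = 0 := by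
    ext k k'
    exact congrFun (congrFun h12 (Sum.inr k)) k'
  let Om : Matrix (J ⊕ K) (J ⊕ K) C := Matrix.fromRows NJ M.toBlocks₂₁
  let Xi : Matrix (J ⊕ K) (J ⊕ K) C := Matrix.fromCols Pm U
  let Low : Matrix (J ⊕ K) (J ⊕ K) C := Matrix.fromBlocks 1 0 (-(M.toBlocks₂₁ * Pm)) 1
  have a4 : Low * Om * Xi = 1 := by
    rw [Matrix.mul_assoc, Matrix.fromRows_mul_fromCols, a1, a2]
    change Matrix.fromBlocks 1 0 (-(M.toBlocks₂₁ * Pm)) 1 * _ = _
    have h4 : M.toBlocks₂₁ * U = 1 := h2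
    rw [Matrix.fromBlocks_multiply, h4, ← Matrix.fromBlocks_one]
    simp only [Matrix.mul_one, Matrix.one_mul, Matrix.mul_zero, Matrix.zero_mul, add_zero,
      zero_add, neg_add_cancel]
  have a5 : Xi * (Low * Om) = 1 := mul_eq_one_comm.mp a4
  have b1 : Low * Om = Matrix.fromRows NJ (-(M.toBlocks₂₁ * Pm) * NJ + M.toBlocks₂₁) := by
    change Matrix.fromBlocks 1 0 (-(M.toBlocks₂₁ * Pm)) 1 * Matrix.fromRows NJ M.toBlocks₂₁ = _
    rw [Matrix.fromBlocks_mul_fromRows, Matrix.one_mul, Matrix.zero_mul, add_zero, Matrix.one_mul]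
  have b2 : NK * Xi = Matrix.fromCols (NK * Pm) 0 := by
    change NK * Matrix.fromCols Pm U = _
    rw [Matrix.mul_fromCols, a3]
  have a6 : NK = (NK * Pm) * NJ := by
    calc NK = NK * (Xi * (Low * Om)) := by rw [a5, Matrix.mul_one]
      _ = (NK * Xi) * (Low * Om) := by rw [Matrix.mul_assoc]
      _ = (NK * Pm) * NJ := by
        rw [b1, b2, Matrix.fromCols_mul_fromRows, Matrix.zero_mul, add_zero]
  refine ⟨NK * Pm, fun k i => ?_⟩
  have h3 := congrFun (congrFun a6 k) i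
  rw [Matrix.mul_apply] at h3
  exact h3

end Pool.Agent.L5helper70.GH
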