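import Pool.Agent.L5helper70.GH.CorMat

/-!
# From the complements of graph hypersurfaces to quadratic spaces with orthogonality relations
-/

set_option autoImplicit false
set_option linter.unusedVariables false
set_option maxHeartbeats 1000000

open MvPolynomial

open scoped Matrix

namespace Pool.Agent.L5helper70.GH

section matrix

variable {C : Type} [CommRing C] {J K : Type} [Fintype J] [DecidableEq J]

/-- the matrix of rank `J` -/
def dN (d : J → C) (S : Matrix J K C) : Matrix (J ⊕ K) (J ⊕ K) C :=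
  Matrix.fromBlocks (Matrix.diagonal d) (Matrix.diagonal d * S) (Sᵀ * Matrix.diagonal d)
    (Sᵀ * Matrix.diagonal d * S)

/-- a symmetric matrix -/
def zM (z : Sym2 K → C) : Matrix K K C := Matrix.of fun k k' => z s(k, k')

/-- the bordered matrix -/
def dM (d : J → C) (S : Matrix J K C) (Y : Matrix (J ⊕ K) K C) (z : Sym2 K → C) :
    Matrix ((J ⊕ K) ⊕ K) ((J ⊕ K) ⊕ K) C :=
  Matrix.fromBlocks (dN d S) Y Yᵀ (zM z)

lemma dM_map {C' : Type} [CommRing C'] (f : C →+* C') (d : J → C) (S : Matrix J K C)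
    (Y : Matrix (J ⊕ K) K C) (z : Sym2 K → C) :
    (dM d S Y z).map f = dM (fun j => f (d j)) (S.map f) (Y.map f) (fun k => f (z k)) := by
  rw [dM, dM, dN, dN, Matrix.fromBlocks_map, Matrix.fromBlocks_map]
  simp only [Matrix.map_mul, Matrix.transpose_map]
  rw [Matrix.diagonal_map (map_zero f)]
  rfl

lemma dM_symm (d : J → C) (S : Matrix J K C) (Y : Matrix (J ⊕ K) K C) (z : Sym2 K → C) :
    (dM d S Y z)ᵀ = dM d S Y z := by
  rw [dM, dN, Matrix.fromBlocks_transpose, Matrix.fromBlocks_transpose,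
    Matrix.diagonal_transpose, Matrix.transpose_transpose]
  congr 1
  · congr 1
    · rw [Matrix.transpose_mul, Matrix.transpose_transpose, Matrix.diagonal_transpose]
    · rw [Matrix.transpose_mul, Matrix.diagonal_transpose]
    · rw [Matrix.transpose_mul, Matrix.transpose_mul, Matrix.transpose_transpose,
        Matrix.diagonal_transpose, Matrix.mul_assoc]
  · ext k k'
    rw [Matrix.transpose_apply, zM, Matrix.of_apply, Matrix.of_apply, Sym2.eq_swap]

lemma diag_mul (d : J → C) (S : Matrix J K C) (j : J) (k : K) :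
    (Matrix.diagonal d * S) j k = d j * S j k := by
  rw [Matrix.diagonal_mul]

lemma mul_diag (d : J → C) (S : Matrix J K C) (j : J) (k : K) :
    (Sᵀ * Matrix.diagonal d) k j = S j k * d j := by
  rw [Matrix.mul_diagonal, Matrix.transpose_apply]

lemma gram (d : J → C) (S : Matrix J K C) (k k' : K) :
    (Sᵀ * Matrix.diagonal d * S) k k' = ∑ j, S j k * d j * S j k' := by
  rw [Matrix.mul_apply]
  simp only [mul_diag]

lemma dM_jj (d : J → C) (S : Matrix J K C) (Y : Matrix (J ⊕ K) K C) (z : Sym2 K → C) (a b : J) :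
    dM d S Y z (Sum.inl (Sum.inl a)) (Sum.inl (Sum.inl b)) = if a = b then d a else 0 := by
  change Matrix.diagonal d a b = _
  rw [Matrix.diagonal_apply]

lemma dM_jk (d : J → C) (S : Matrix J K C) (Y : Matrix (J ⊕ K) K C) (z : Sym2 K → C) (a : J)
    (b : K) : dM d S Y z (Sum.inl (Sum.inl a)) (Sum.inl (Sum.inr b)) = d a * S a b :=
  diag_mul d S a b

lemma dM_kj (d : J → C) (S : Matrix J K C) (Y : Matrix (J ⊕ K) K C) (z : Sym2 K → C) (a : K)
    (b : J) : dM d S Y z (Sum.inl (Sum.inr a)) (Sum.inl (Sum.inl b)) = S b a * d b :=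
  mul_diag d S b a

lemma dM_kk (d : J → C) (S : Matrix J K C) (Y : Matrix (J ⊕ K) K C) (z : Sym2 K → C) (a b : K) :
    dM d S Y z (Sum.inl (Sum.inr a)) (Sum.inl (Sum.inr b)) = ∑ j, S j a * d j * S j b :=
  gram d S a b

lemma dM_lr (d : J → C) (S : Matrix J K C) (Y : Matrix (J ⊕ K) K C) (z : Sym2 K → C) (a : J ⊕ K)
    (b : K) : dM d S Y z (Sum.inl a) (Sum.inr b) = Y a b := rfl

lemma dM_rl (d : J → C) (S : Matrix J K C) (Y : Matrix (J ⊕ K) K C) (z : Sym2 K → C) (a : J ⊕ K)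
    (b : K) : dM d S Y z (Sum.inr b) (Sum.inl a) = Y a b := rfl

lemma dM_rr (d : J → C) (S : Matrix J K C) (Y : Matrix (J ⊕ K) K C) (z : Sym2 K → C) (a b : K) :
    dM d S Y z (Sum.inr a) (Sum.inr b) = z s(a, b) := rfl

variable [Fintype K] [DecidableEq K]

/-- the kernel of the matrix of rank `J` -/
def kU (S : Matrix J K C) : Matrix (J ⊕ K) K C := Matrix.fromRows (-S) 1

lemma dN_ker (d : J → C) (S : Matrix J K C) : dN d S * kU S = 0 := by
  rw [dN, kU, Matrix.fromBlocks_mul_fromRows]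
  simp only [Matrix.mul_neg, Matrix.mul_one, neg_add_cancel]
  ext i j
  rcases i with i | i <;> rfl

lemma dM_corank {d : J → C} {S : Matrix J K C} {Y : Matrix (J ⊕ K) K C} {z : Sym2 K → C}
    {G : Matrix ((J ⊕ K) ⊕ K) ((J ⊕ K) ⊕ K) C} (h : dM d S Y z * G = 1) : G.toBlocks₂₂ = 0 := by
  refine corank_fwd (dN_ker d S) (W := Matrix.fromCols 0 1) ?_ h
  rw [kU, Matrix.fromCols_mul_fromRows, Matrix.zero_mul, zero_add, Matrix.one_mul]

/-- the matrix at the section is invertible -/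
lemma dM_section {d : J → C} (hd : ∀ j, IsUnit (d j)) (S : Matrix J K C) :
    IsUnit (dM d S (Matrix.fromRows 0 1) (fun _ => 0)).det := by
  choose δ hδ using fun j => (hd j).exists_right_inv
  refine Matrix.isUnit_det_of_right_inverse (B := Matrix.fromBlocks
    (Matrix.fromBlocks (Matrix.diagonal δ) 0 0 0) (kU S)
      (Matrix.fromCols (-Sᵀ) 1) 0) ?_
  have h1 : Matrix.diagonal d * Matrix.diagonal δ = 1 := by
    rw [Matrix.diagonal_mul_diagonal, ← Matrix.diagonal_one]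
    congr 1
    funext j
    exact hδ j
  have h0 : zM (fun _ : Sym2 K => (0 : C)) = 0 := rfl
  have h2 : (Matrix.fromRows (0 : Matrix J K C) (1 : Matrix K K C))ᵀ =
      Matrix.fromCols (0 : Matrix K J C) (1 : Matrix K K C) := by
    rw [Matrix.transpose_fromRows, Matrix.transpose_zero, Matrix.transpose_one]
  rw [dM, h0, h2, Matrix.fromBlocks_multiply, ← Matrix.fromBlocks_one]
  congr 1
  · rw [dN, Matrix.fromBlocks_multiply, Matrix.fromRows_mul_fromCols]
    simp only [Matrix.mul_zero, add_zero, Matrix.zero_mul, h1, Matrix.mul_assoc, Matrix.mul_one,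
      Matrix.one_mul]
    rw [Matrix.fromBlocks_add, ← Matrix.fromBlocks_one]
    congr 1
    · rw [add_zero]
    · rw [add_zero]
    · rw [add_neg_cancel]
    · rw [zero_add]
  · rw [dN_ker, Matrix.mul_zero, add_zero]
  · have h3 : (0 : Matrix K K C) * Matrix.fromCols (-Sᵀ) (1 : Matrix K K C) = 0 :=
      Matrix.zero_mul _
    rw [Matrix.fromCols_mul_fromBlocks, h3, add_zero]
    simp only [Matrix.mul_zero, Matrix.zero_mul, add_zero]
    ext i j
    rcases j with j | j <;> rfl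
  · rw [kU, Matrix.fromCols_mul_fromRows, Matrix.zero_mul, zero_add, Matrix.one_mul,
      Matrix.zero_mul, add_zero]

end matrix

section

/-- the pattern -/
def pE {J K : Type} (s : J → K → Prop) (t : K → K → Prop) : (J ⊕ K) ⊕ K → (J ⊕ K) ⊕ K → Prop
  | Sum.inl (Sum.inl j), Sum.inl (Sum.inl j') => j = j'
  | Sum.inl (Sum.inl j), Sum.inl (Sum.inr k) => s j k
  | Sum.inl (Sum.inr k), Sum.inl (Sum.inl j) => s j k
  | Sum.inl (Sum.inr k), Sum.inl (Sum.inr k') => t k k'
  | Sum.inl _, Sum.inr _ => True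
  | Sum.inr _, _ => True

/-- the border -/
def bd {I K : Type} : I ⊕ K → Prop := Sum.elim (fun _ => False) fun _ => True

lemma pE_refl {J K : Type} (s : J → K → Prop) (t : K → K → Prop) (ht : ∀ k, t k k) :
    ∀ i, pE s t i i := by
  rintro ((j | k) | k)
  · exact rfl
  · exact ht k
  · exact trivial

lemma pE_symm {J K : Type} (s : J → K → Prop) (t : K → K → Prop) (ht : ∀ k k', t k k' → t k' k) :
    ∀ i j, pE s t i j → pE s t j i := by
  rintro ((j | k) | k) ((j' | k') | k') h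
  · exact Eq.symm h
  · exact h
  · exact trivial
  · exact h
  · exact ht _ _ h
  · exact trivial
  · exact trivial
  · exact trivial
  · exact trivial

end

section points

variable {C : Type} [CommRing C] {J K : Type} [Fintype J] [DecidableEq J] [Fintype K]
  [DecidableEq K]

/-- A diagonal form `d` and the vectors `S_k` with prescribed zeros and orthogonality relations. -/
def BSp (s : J → K → Prop) (t : K → K → Prop) (p : J → K) (v : J ⊕ J × K → C) : Prop :=
  (∀ j, IsUnit (v (Sum.inl j))) ∧ (∀ j k, ¬ s j k → v (Sum.inr (j, k)) = 0) ∧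
    (∀ j, IsUnit (v (Sum.inr (j, p j)))) ∧
    ∀ k k', ¬ t k k' → ∑ j, v (Sum.inr (j, k)) * v (Sum.inl j) * v (Sum.inr (j, k')) = 0

/-- the conditions for the matrix -/
def IPM (s : J → K → Prop) (t : K → K → Prop) (p : J → K)
    (m : Matrix ((J ⊕ K) ⊕ K) ((J ⊕ K) ⊕ K) C) : Prop :=
  (∀ i j, m i j = m j i) ∧ (∀ i j, ¬ pE s t i j → m i j = 0) ∧
    (∃ G : Matrix ((J ⊕ K) ⊕ K) ((J ⊕ K) ⊕ K) C, m * G = 1 ∧ G.toBlocks₂₂ = 0) ∧
      ∀ j, IsUnit (m (Sum.inl (Sum.inl j)) (Sum.inl (Sum.inr (p j))))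

/-- the matrix of a point -/
def dD (v : (J ⊕ J × K) ⊕ ((J ⊕ K) × K ⊕ Sym2 K) → C) :
    Matrix ((J ⊕ K) ⊕ K) ((J ⊕ K) ⊕ K) C :=
  dM (fun j => v (Sum.inl (Sum.inl j))) (Matrix.of fun j k => v (Sum.inl (Sum.inr (j, k))))
    (Matrix.of fun i k => v (Sum.inr (Sum.inl (i, k)))) (fun k => v (Sum.inr (Sum.inr k)))

omit [Fintype K] [DecidableEq K] in
lemma dD_map {C' : Type} [CommRing C'] (f : C →+* C')
    (v : (J ⊕ J × K) ⊕ ((J ⊕ K) × K ⊕ Sym2 K) → C) : (dD v).map f = dD fun s => f (v s) :=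
  dM_map f _ _ _ _

lemma dD_mem {s : J → K → Prop} {t : K → K → Prop} {p : J → K}
    {v : (J ⊕ J × K) ⊕ ((J ⊕ K) × K ⊕ Sym2 K) → C} (h : BSp s t p fun s => v (Sum.inl s))
    (hd : IsUnit (dD v).det) : IPM s t p (dD v) := by
  obtain ⟨h1, h2, h3, h4⟩ := h
  refine ⟨?_, ?_, ⟨_, Matrix.mul_nonsing_inv _ hd, dM_corank (Matrix.mul_nonsing_inv _ hd)⟩, ?_⟩
  · intro i j
    exact congrFun (congrFun (dM_symm (fun j => v (Sum.inl (Sum.inl j)))
      (Matrix.of fun j k => v (Sum.inl (Sum.inr (j, k))))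
      (Matrix.of fun i k => v (Sum.inr (Sum.inl (i, k)))) (fun k => v (Sum.inr (Sum.inr k)))) j) i
  · rintro ((a | a) | a) ((b | b) | b) hab
    · rw [dD, dM_jj]
      exact if_neg hab
    · have h6 : v (Sum.inl (Sum.inr (a, b))) = 0 := h2 a b hab
      rw [dD, dM_jk, Matrix.of_apply, h6, mul_zero]
    · exact absurd trivial hab
    · have h6 : v (Sum.inl (Sum.inr (b, a))) = 0 := h2 b a hab
      rw [dD, dM_kj, Matrix.of_apply, h6, zero_mul]
    · rw [dD, dM_kk]
      exact h4 a b hab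
    · exact absurd trivial hab
    · exact absurd trivial hab
    · exact absurd trivial hab
    · exact absurd trivial hab
  · intro j
    rw [dD, dM_jk]
    exact (h1 j).mul (h3 j)

omit [Fintype K] [DecidableEq K] in
lemma dD_inj {v w : (J ⊕ J × K) ⊕ ((J ⊕ K) × K ⊕ Sym2 K) → C}
    (hv : ∀ j, IsUnit (v (Sum.inl (Sum.inl j)))) (h : dD v = dD w) : v = w := by
  have e2 := fun i j => congrFun (congrFun h i) j
  have ed : ∀ j, v (Sum.inl (Sum.inl j)) = w (Sum.inl (Sum.inl j)) := by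
    intro j
    have h6 := e2 (Sum.inl (Sum.inl j)) (Sum.inl (Sum.inl j))
    rwa [dD, dD, dM_jj, dM_jj, if_pos rfl, if_pos rfl] at h6
  funext s
  rcases s with (j | ⟨j, k⟩) | (⟨i, k⟩ | k)
  · exact ed j
  · have h6 := e2 (Sum.inl (Sum.inl j)) (Sum.inl (Sum.inr k))
    rw [dD, dD, dM_jk, dM_jk, ← ed j] at h6
    exact (hv j).mul_left_cancel h6
  · exact e2 (Sum.inl i) (Sum.inr k)
  · induction k using Sym2.ind with
    | _ k k' => exact e2 (Sum.inr k) (Sum.inr k')

lemma dD_surj {s : J → K → Prop} {t : K → K → Prop} {p : J → K} (hsp : ∀ j j', s j (p j') → j = j')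
    {m : Matrix ((J ⊕ K) ⊕ K) ((J ⊕ K) ⊕ K) C} (hm : IPM s t p m) :
    ∃ v, BSp s t p (fun s => v (Sum.inl s)) ∧ IsUnit (dD v).det ∧ dD v = m := by
  obtain ⟨h3, h4, ⟨G, h5, h6⟩, h7⟩ := hm
  choose y hy using fun j => (h7 j).exists_right_inv
  obtain ⟨Λ, hΛ⟩ := corank_bwd h5 h6 p y (by
    intro j j'
    by_cases hjj : j = j'
    · subst hjj
      rw [if_pos rfl]
      exact hy j
    · rw [if_neg hjj]
      have h8 : m (Sum.inl (Sum.inl j)) (Sum.inl (Sum.inr (p j'))) = 0 :=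
        h4 _ _ fun hc => hjj (hsp _ _ hc)
      rw [h8, zero_mul])
  have hΛd : ∀ k j, m (Sum.inl (Sum.inr k)) (Sum.inl (Sum.inl j)) =
      Λ k j * m (Sum.inl (Sum.inl j)) (Sum.inl (Sum.inl j)) := by
    intro k j
    refine (hΛ k (Sum.inl j)).trans (Finset.sum_eq_single j ?_ fun h => absurd
      (Finset.mem_univ j) h)
    intro j' _ hj'
    have h8 : m (Sum.inl (Sum.inl j')) (Sum.inl (Sum.inl j)) = 0 := h4 _ _ hj'
    rw [h8, mul_zero]
  have hd : ∀ j, IsUnit (m (Sum.inl (Sum.inl j)) (Sum.inl (Sum.inl j))) := by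
    intro j
    have h8 := hΛd (p j) j
    have h9 := h7 j
    rw [h3, h8] at h9
    exact isUnit_of_mul_isUnit_right h9
  choose δ hδ using fun j => (hd j).exists_right_inv
  let z : Sym2 K → C := Sym2.lift ⟨fun k k' => m (Sum.inr k) (Sum.inr k'), fun k k' => h3 _ _⟩
  let S : Matrix J K C := Matrix.of fun j k => δ j * m (Sum.inl (Sum.inl j)) (Sum.inl (Sum.inr k))
  have hSe : ∀ j k, S j k = δ j * m (Sum.inl (Sum.inl j)) (Sum.inl (Sum.inr k)) := fun _ _ => rfl
  have hS : ∀ j k, m (Sum.inl (Sum.inl j)) (Sum.inl (Sum.inl j)) * S j k =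
      m (Sum.inl (Sum.inl j)) (Sum.inl (Sum.inr k)) := by
    intro j k
    rw [hSe, ← mul_assoc, hδ, one_mul]
  have hSS : ∀ k k', ∑ j, S j k * m (Sum.inl (Sum.inl j)) (Sum.inl (Sum.inl j)) * S j k' =
      m (Sum.inl (Sum.inr k)) (Sum.inl (Sum.inr k')) := by
    intro k k'
    rw [hΛ k (Sum.inr k')]
    apply Finset.sum_congr rfl
    intro j _
    have h8 := hΛd k j
    rw [mul_assoc, hS]
    congr 1
    rw [hSe, h3, h8]
    linear_combination Λ k j * hδ j
  let v : (J ⊕ J × K) ⊕ ((J ⊕ K) × K ⊕ Sym2 K) → C :=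
    Sum.elim (Sum.elim (fun j => m (Sum.inl (Sum.inl j)) (Sum.inl (Sum.inl j)))
      fun q => S q.1 q.2) (Sum.elim (fun q => m (Sum.inl q.1) (Sum.inr q.2)) z)
  have hdM : dD v = m := by
    ext i j
    rcases i with (a | a) | a <;> rcases j with (b | b) | b
    · rw [dD, dM_jj]
      by_cases hab : a = b
      · subst hab
        rw [if_pos rfl]
        rfl
      · rw [if_neg hab]
        exact (h4 (Sum.inl (Sum.inl a)) (Sum.inl (Sum.inl b)) hab).symm
    · rw [dD, dM_jk]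
      exact hS a b
    · rfl
    · rw [dD, dM_kj, mul_comm]
      exact (hS b a).trans (h3 _ _)
    · rw [dD, dM_kk]
      exact hSS a b
    · rfl
    · exact h3 _ _
    · exact h3 _ _
    · rfl
  refine ⟨v, ⟨hd, ?_, ?_, ?_⟩, ?_, hdM⟩
  · intro j k hjk
    change δ j * m (Sum.inl (Sum.inl j)) (Sum.inl (Sum.inr k)) = 0
    rw [h4 (Sum.inl (Sum.inl j)) (Sum.inl (Sum.inr k)) hjk, mul_zero]
  · intro j
    exact (IsUnit.of_mul_eq_one_right _ (hδ j)).mul (h7 j)
  · intro k k' hkk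
    exact (hSS k k').trans (h4 (Sum.inl (Sum.inr k)) (Sum.inl (Sum.inr k')) hkk)
  · rw [hdM]
    exact Matrix.isUnit_det_of_right_inverse h5

end points

end Pool.Agent.L5helper70.GH
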