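import Pool.Agent.L5helper70.GH.Gad2
import Pool.Agent.L5helper70.QF.Concl

/-!
# The complements of graph hypersurfaces decide all schemes with equations over the integers
-/

set_option autoImplicit false
set_option linter.unusedVariables false
set_option maxHeartbeats 1000000

open CategoryTheory AlgebraicGeometry MvPolynomial Pool.Agent.Y116.UV Pool.Agent.Z125.UN
  Pool.Agent.L5helper70.QF

open scoped Matrix

namespace Pool.Agent.L5helper70.GH

section graph

/-- The vertices and the edges of a graph, as unordered pairs. -/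
abbrev GPos {n : ℕ} (G : SimpleGraph (Fin n)) : Type :=
  {e : Sym2 (Fin n) // e.IsDiag ∨ e ∈ G.edgeSet}

open scoped Classical in
/-- The generic symmetric matrix with zeros at the positions of the non-edges. -/
noncomputable def gMat (R : Type) [CommRing R] {n : ℕ} (G : SimpleGraph (Fin n)) :
    Matrix (Fin n) (Fin n) (MvPolynomial (GPos G) R) :=
  fun i j => if h : s(i, j).IsDiag ∨ s(i, j) ∈ G.edgeSet then X ⟨s(i, j), h⟩ else 0

open scoped Classical in
/-- the matrix of a point -/
noncomputable def gm {C : Type} [CommRing C] {n : ℕ} (G : SimpleGraph (Fin n)) (v : GPos G → C) :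
    Matrix (Fin n) (Fin n) C :=
  fun i j => if h : s(i, j).IsDiag ∨ s(i, j) ∈ G.edgeSet then v ⟨s(i, j), h⟩ else 0

lemma gMat_map {R C : Type} [CommRing R] [CommRing C] [Algebra R C] {n : ℕ}
    (G : SimpleGraph (Fin n)) (v : GPos G → C) :
    (gMat R G).map (aeval v : MvPolynomial (GPos G) R →ₐ[R] C).toRingHom = gm G v := by
  classical
  ext i j
  change aeval v (gMat R G i j) = _
  rw [gMat, gm]
  split_ifs with h
  · exact aeval_X _ _
  · exact map_zero _

lemma gMat_det {R C : Type} [CommRing R] [CommRing C] [Algebra R C] {n : ℕ}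
    (G : SimpleGraph (Fin n)) (v : GPos G → C) : aeval v (gMat R G).det = (gm G v).det := by
  rw [← gMat_map (R := R)]
  exact RingHom.map_det (aeval v : MvPolynomial _ R →ₐ[R] C).toRingHom _

lemma gm_symm {C : Type} [CommRing C] {n : ℕ} (G : SimpleGraph (Fin n)) (v : GPos G → C) :
    (gm G v)ᵀ = gm G v := by
  classical
  ext i j
  rw [Matrix.transpose_apply, gm, gm]
  have h1 : s(j, i) = s(i, j) := Sym2.eq_swap
  have key : ∀ a b : Sym2 (Fin n), a = b →
      (if h : a.IsDiag ∨ a ∈ G.edgeSet then v ⟨a, h⟩ else 0) =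
        if h : b.IsDiag ∨ b ∈ G.edgeSet then v ⟨b, h⟩ else 0 := by
    rintro a _ rfl
    rfl
  exact key _ _ h1

end graph

section

variable {R : Type} [CommRing R] {P : Sch R → Prop} {sep : Prop}

lemma rp_ip {V : Type} [Fintype V] [DecidableEq V] (E : V → V → Prop) (Zs Ts : V → Prop) :
    Rp (IP (R := R) E Zs Ts) := by
  classical
  refine ((rp_true R (V × V ⊕ V × V)).cls (κ := (V × V) ⊕ ({q : V × V // ¬ E q.1 q.2} ⊕
    ((V × V) ⊕ {q : V × V // Zs q.1 ∧ Ts q.2}))) (Sum.elim
      (fun q => X (Sum.inl (q.2, q.1)) - X (Sum.inl q))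
      (Sum.elim (fun q => X (Sum.inl q.1)) (Sum.elim
        (fun q => ∑ j, X (Sum.inl (q.1, j)) * X (Sum.inr (j, q.2)) - (if q.1 = q.2 then 1 else 0))
          fun q => X (Sum.inr q.1))))).congr ?_
  intro C _ _ v
  constructor
  · rintro ⟨-, h⟩
    refine ⟨?_, ?_, ?_, ?_⟩
    · ext i j
      have h1 := h (Sum.inl (i, j))
      simp only [Sum.elim_inl, map_sub, aeval_X, sub_eq_zero] at h1
      exact h1
    · intro i j hij
      have h1 := h (Sum.inr (Sum.inl ⟨(i, j), hij⟩))
      simp only [Sum.elim_inl, Sum.elim_inr, aeval_X] at h1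
      exact h1
    · ext i j
      have h1 := h (Sum.inr (Sum.inr (Sum.inl (i, j))))
      simp only [Sum.elim_inl, Sum.elim_inr, aeval_X, map_sub, map_sum, map_mul,
        sub_eq_zero] at h1
      rw [Matrix.mul_apply, Matrix.one_apply]
      refine h1.trans ?_
      split_ifs
      · exact map_one _
      · exact map_zero _
    · intro p q hp hq
      have h1 := h (Sum.inr (Sum.inr (Sum.inr ⟨(p, q), hp, hq⟩)))
      simp only [Sum.elim_inr, aeval_X] at h1
      exact h1
  · rintro ⟨h1, h2, h3, h4⟩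
    refine ⟨trivial, ?_⟩
    rintro (⟨i, j⟩ | ⟨⟨i, j⟩, hij⟩ | ⟨i, j⟩ | ⟨⟨i, j⟩, hij⟩)
    · simp only [Sum.elim_inl, map_sub, aeval_X, sub_eq_zero]
      exact congrFun (congrFun h1 i) j
    · simp only [Sum.elim_inl, Sum.elim_inr, aeval_X]
      exact h2 i j hij
    · have h5 := congrFun (congrFun h3 i) j
      rw [Matrix.mul_apply, Matrix.one_apply] at h5
      simp only [Sum.elim_inl, Sum.elim_inr, aeval_X, map_sub, map_sum, map_mul, sub_eq_zero]
      refine Eq.trans h5 ?_
      split_ifs
      · exact (map_one _).symm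
      · exact (map_zero _).symm
    · simp only [Sum.elim_inr, aeval_X]
      exact h4 i j hij.1 hij.2

variable (hP : Bnd sep P)

include hP

/-- change of the set of vertices -/
lemma ip_equiv {V W : Type} [Fintype V] [DecidableEq V] [Fintype W] [DecidableEq W] (e : V ≃ W)
    {E : V → V → Prop}
    (h : Pr P (IP (R := R) E (fun _ => False) (fun _ => False))) :
    Pr P (IP (R := R) (fun i j : W => E (e.symm i) (e.symm j)) (fun _ => False)
      (fun _ => False)) := by
  refine (h.reindex ((Equiv.prodCongr e e).sumCongr (Equiv.prodCongr e e))).congr ?_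
  intro C _ _ v
  have hm : (mx fun s => v (((Equiv.prodCongr e e).sumCongr (Equiv.prodCongr e e)) s)) =
      (mx v).submatrix e e := rfl
  have hg : (gx fun s => v (((Equiv.prodCongr e e).sumCongr (Equiv.prodCongr e e)) s)) =
      (gx v).submatrix e e := rfl
  rw [IP, IP, hm, hg, sub_mul_one]
  have a1 : ((mx v).submatrix e e)ᵀ = (mx v).submatrix e e ↔ (mx v)ᵀ = mx v := by
    constructor
    · intro h
      ext i j
      obtain ⟨i, rfl⟩ := e.surjective i
      obtain ⟨j, rfl⟩ := e.surjective j
      exact congrFun (congrFun h i) j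
    · intro h
      rw [Matrix.transpose_submatrix, h]
  have a2 : (∀ i j, ¬ E i j → (mx v).submatrix e e i j = 0) ↔
      ∀ i j, ¬ E (e.symm i) (e.symm j) → mx v i j = 0 := by
    constructor
    · intro h i j hij
      have h1 := h (e.symm i) (e.symm j) hij
      rwa [Matrix.submatrix_apply, e.apply_symm_apply, e.apply_symm_apply] at h1
    · intro h i j hij
      refine h (e i) (e j) ?_
      rwa [e.symm_apply_apply, e.symm_apply_apply]
  rw [a1, a2]
  simp only [false_implies, implies_true, and_true]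

/-- from graphs on `Fin n` to all patterns -/
theorem gc_of (h : ∀ (n : ℕ) (G : SimpleGraph (Fin n)),
    P (aff R (Localization.Away (gMat R G).det))) : GC (R := R) P := by
  classical
  intro V _ _ E hr hs
  let e := Fintype.equivFin V
  suffices h1 : ∀ (n : ℕ) (E : Fin n → Fin n → Prop), (∀ i, E i i) → (∀ i j, E i j → E j i) →
      Pr P (IP (R := R) E (fun _ => False) (fun _ => False)) by
    have h2 := ip_equiv hP e.symm (h1 _ (fun i j => E (e.symm i) (e.symm j)) (fun i => hr _)
      fun i j h => hs _ _ h)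
    refine h2.congr ?_
    intro C _ _ v
    simp only [Equiv.symm_symm, Equiv.symm_apply_apply]
  intro n E hr hs
  let G : SimpleGraph (Fin n) := SimpleGraph.fromRel E
  have hG : ∀ i j, (s(i, j).IsDiag ∨ s(i, j) ∈ G.edgeSet) ↔ E i j := by
    intro i j
    rw [Sym2.mk_isDiag_iff, SimpleGraph.mem_edgeSet, SimpleGraph.fromRel_adj]
    constructor
    · rintro (rfl | ⟨-, h | h⟩)
      · exact hr i
      · exact h
      · exact hs _ _ h
    · intro h
      by_cases hij : i = j
      · exact Or.inl hij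
      · exact Or.inr ⟨hij, Or.inl h⟩
  have h1 : Pr P (fun C _ _ v => True ∧ IsUnit (aeval v (gMat R G).det) : Cond R (GPos G)) := by
    have h2 := (repr_true (R := R) (σ := GPos G)).opened' (gMat R G).det _
      (aeval_X_left_apply _)
    have : Algebra.FiniteType R (Localization.Away (gMat R G).det) :=
      Algebra.FiniteType.trans (S := MvPolynomial (GPos G) R) inferInstance inferInstance
    exact (pr_iff hP h2).mpr (h n G)
  -- the values at the representatives
  have hout : ∀ {C : Type} [CommRing C] (M : Matrix (Fin n) (Fin n) C), Mᵀ = M → ∀ i j,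
      M (Quot.out s(i, j)).1 (Quot.out s(i, j)).2 = M i j := by
    intro C _ M hM i j
    have h2 : s((Quot.out s(i, j)).1, (Quot.out s(i, j)).2) = s(i, j) := Quot.out_eq _
    rw [Sym2.eq_iff] at h2
    rcases h2 with ⟨h3, h4⟩ | ⟨h3, h4⟩
    · rw [h3, h4]
    · rw [h3, h4]
      exact congrFun (congrFun hM i) j
  have hgm : ∀ {C : Type} [CommRing C] (M : Matrix (Fin n) (Fin n) C), Mᵀ = M →
      (∀ i j, ¬ E i j → M i j = 0) →
      gm G (fun e : GPos G => M (Quot.out e.1).1 (Quot.out e.1).2) = M := by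
    intro C _ M hM hE
    ext i j
    rw [gm]
    split_ifs with h2
    · exact hout M hM i j
    · exact (hE i j fun h3 => h2 ((hG i j).mpr h3)).symm
  refine h1.pull hP (rp_ip _ _ _) (fun e => X (Sum.inl ((Quot.out e.1).1, (Quot.out e.1).2)))
    ?_ ?_ ?_
  · intro C _ _ v hv
    refine ⟨trivial, ?_⟩
    rw [gMat_det]
    simp only [aeval_X]
    have h2 := hgm (mx v) hv.1 hv.2.1
    have h3 : gm G (fun e : GPos G => v (Sum.inl ((Quot.out e.1).1, (Quot.out e.1).2))) = mx v := h2
    rw [h3]
    exact Matrix.isUnit_det_of_right_inverse hv.2.2.1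
  · intro C _ _ v w hv hw hvw
    simp only [aeval_X] at hvw
    have e1 : mx v = mx w := by
      rw [← hgm (mx v) hv.1 hv.2.1, ← hgm (mx w) hw.1 hw.2.1]
      congr 1
      funext e
      exact hvw e
    have e2 : gx v = gx w := by
      have h5 := hw.2.2.1
      rw [← e1] at h5
      exact inv_uniq hv.2.2.1 h5
    rw [← mg_mx_gx v, ← mg_mx_gx w, e1, e2]
  · intro C _ _ v hv
    have h2 := hv.2
    rw [gMat_det] at h2
    refine ⟨mg (gm G v) (gm G v)⁻¹, ⟨gm_symm G v, ?_, Matrix.mul_nonsing_inv _ h2, ?_⟩, ?_⟩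
    · intro i j hij
      change gm G v i j = 0
      rw [gm, dif_neg fun h3 => hij ((hG i j).mp h3)]
    · intro p q hp
      exact hp.elim
    · intro e
      rw [aeval_X]
      change gm G v _ _ = v e
      rw [gm]
      have h3 : s((Quot.out e.1).1, (Quot.out e.1).2) = e.1 := Quot.out_eq _
      have h4 : s((Quot.out e.1).1, (Quot.out e.1).2).IsDiag ∨
          s((Quot.out e.1).1, (Quot.out e.1).2) ∈ G.edgeSet := by
        rw [h3]
        exact e.2
      rw [dif_pos h4]
      congr 1
      exact Subtype.ext h3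

/-- the hypersurfaces of the tripartite hypergraphs -/
theorem trip_of_gc (hX : Sec P) (hY : GC (R := R) P) {a b c : ℕ}
    (H : Finset (Fin a × Fin b × Fin c)) : P (aff R (Trip R H)) := by
  classical
  let H' : Fin a → Fin b → Fin c → Prop := fun i j k => (i, j, k) ∈ H
  have h1 := pr_blc hP H' hX hY
  let f : Fin c → MvPolynomial (Fin a ⊕ Fin b) R := fun k =>
    ∑ i, ∑ j, (if H' i j k then X (Sum.inl i) * X (Sum.inr j) else 0)
  have hf : ∀ (C : Type) [CommRing C] [Algebra R C] (v : Fin a ⊕ Fin b → C) (k : Fin c),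
      aeval v (f k) = ∑ i, ∑ j, (if H' i j k then v (Sum.inl i) * v (Sum.inr j) else 0) := by
    intro C _ _ v k
    rw [map_sum]
    apply Finset.sum_congr rfl
    intro i _
    rw [map_sum]
    apply Finset.sum_congr rfl
    intro j _
    split_ifs
    · rw [map_mul, aeval_X, aeval_X]
    · rw [map_zero]
  have h2 := (pr_true hP (R := R) (σ := Fin a ⊕ Fin b)).jou hP f (h1.congr (by
    intro C _ _ v
    simp only [hf, true_and]
    rfl))
  -- the reindexed condition
  have h3 := h2.reindex (Equiv.sumAssoc (Fin a) (Fin b) (Fin c))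
  have h4 := (repr_true (R := R) (σ := Fin a ⊕ (Fin b ⊕ Fin c))).closed1'
    (∑ h ∈ H, X (Sum.inl h.1) * X (Sum.inr (Sum.inl h.2.1)) * X (Sum.inr (Sum.inr h.2.2)) - 1) _
      (aeval_X_left_apply _)
  refine (pr_iff hP h4).mp (h3.congr ?_)
  intro C _ _ v
  simp only [true_and, hf, map_sub, map_sum, map_mul, map_one, aeval_X, sub_eq_zero,
    Equiv.sumAssoc_apply_inl_inl, Equiv.sumAssoc_apply_inl_inr, Equiv.sumAssoc_apply_inr]
  have h5 : ∑ k : Fin c, (∑ i : Fin a, ∑ j : Fin b,
      (if H' i j k then v (Sum.inl i) * v (Sum.inr (Sum.inl j)) else 0)) *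
        v (Sum.inr (Sum.inr k)) =
      ∑ h ∈ H, v (Sum.inl h.1) * v (Sum.inr (Sum.inl h.2.1)) * v (Sum.inr (Sum.inr h.2.2)) := by
    have h6 : ∑ h : Fin a × Fin b × Fin c, (if h ∈ H then v (Sum.inl h.1) *
        v (Sum.inr (Sum.inl h.2.1)) * v (Sum.inr (Sum.inr h.2.2)) else 0) =
        ∑ h ∈ H, v (Sum.inl h.1) * v (Sum.inr (Sum.inl h.2.1)) *
          v (Sum.inr (Sum.inr h.2.2)) := by
      rw [← Finset.sum_filter, Finset.filter_univ_mem]
    rw [← h6, Fintype.sum_prod_type]
    simp only [Fintype.sum_prod_type, Finset.sum_mul]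
    rw [Finset.sum_comm]
    apply Finset.sum_congr rfl
    intro i _
    rw [Finset.sum_comm]
    apply Finset.sum_congr rfl
    intro j _
    apply Finset.sum_congr rfl
    intro k _
    rw [ite_mul, zero_mul]
  rw [h5]

end

end Pool.Agent.L5helper70.GH
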