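import Pool.Agent.L5helper70.GH.Bip

/-!
# Incidence gadgets for bilinear equations: points
-/

set_option autoImplicit false
set_option linter.unusedVariables false
set_option maxHeartbeats 1000000

namespace Pool.Agent.L5helper70.GH

section

variable {α β κ : Type}

/-- The coordinates. -/
abbrev JJ (α β : Type) : Type := Option (α ⊕ β)

/-- The vectors of the first kind: `x` (`none`), `h` (`some none`), `m_j` and `c_(i, k)`. -/
abbrev AV (α β κ : Type) : Type := Option (Option (β ⊕ α × κ))

/-- The vectors of the second kind: `w_k` and `g_(i, j)`. -/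
abbrev BV (α β κ : Type) : Type := κ ⊕ α × β

/-- the entries of the vectors -/
abbrev II (α β κ : Type) : Type := JJ α β × AV α β κ ⊕ JJ α β × BV α β κ

variable (H : α → β → κ → Prop)

/-- the zeros of the vectors of the first kind -/
def zA : JJ α β → AV α β κ → Prop
  | some (Sum.inl _), none => False
  | some (Sum.inr _), none => True
  | none, none => True
  | none, some none => True
  | some _, some none => False
  | none, some (some (Sum.inl _)) => False
  | some (Sum.inl _), some (some (Sum.inl _)) => True
  | some (Sum.inr j'), some (some (Sum.inl j)) => j' ≠ j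
  | none, some (some (Sum.inr _)) => True
  | some (Sum.inl i'), some (some (Sum.inr q)) => i' ≠ q.1
  | some (Sum.inr j), some (some (Sum.inr q)) => ¬ H q.1 j q.2

/-- the zeros of the vectors of the second kind -/
def zB : JJ α β → BV α β κ → Prop
  | _, Sum.inl _ => False
  | none, Sum.inr _ => True
  | some (Sum.inl i'), Sum.inr q => i' ≠ q.1
  | some (Sum.inr j'), Sum.inr q => j' ≠ q.2

/-- the invertible entries of the vectors of the first kind -/
def uA : JJ α β → AV α β κ → Prop
  | _, none => False
  | none, some none => False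
  | some _, some none => True
  | none, some (some (Sum.inl _)) => False
  | some (Sum.inl _), some (some (Sum.inl _)) => False
  | some (Sum.inr j'), some (some (Sum.inl j)) => j' = j
  | none, some (some (Sum.inr _)) => False
  | some (Sum.inl i'), some (some (Sum.inr q)) => i' = q.1
  | some (Sum.inr j), some (some (Sum.inr q)) => H q.1 j q.2

/-- the invertible entries of the vectors of the second kind -/
def uB : JJ α β → BV α β κ → Prop
  | none, Sum.inl _ => True
  | some _, Sum.inl _ => False
  | none, Sum.inr _ => False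
  | some (Sum.inl i'), Sum.inr q => i' = q.1
  | some (Sum.inr j'), Sum.inr q => j' = q.2

/-- the orthogonality relations -/
def TT : AV α β κ → BV α β κ → Prop
  | none, Sum.inl _ => True
  | none, Sum.inr _ => False
  | some none, Sum.inl _ => False
  | some none, Sum.inr _ => True
  | some (some (Sum.inl _)), Sum.inl _ => True
  | some (some (Sum.inl _)), Sum.inr _ => False
  | some (some (Sum.inr q)), Sum.inl k => q.2 = k
  | some (some (Sum.inr q)), Sum.inr q' => q.1 = q'.1 ∧ H q.1 q'.2 q.2

/-- all zeros -/
def zz : II α β κ → Prop := Sum.elim (fun q => zA H q.1 q.2) fun q => zB q.1 q.2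

/-- all invertible entries -/
def uu : II α β κ → Prop := Sum.elim (fun q => uA H q.1 q.2) fun q => uB q.1 q.2

end

section

variable {C : Type} [CommRing C] {α β κ : Type} [Fintype α] [Fintype β] [DecidableEq α]
  [DecidableEq β] {H : α → β → κ → Prop}

/-- The explicit conditions for the vectors. -/
structure GP (H : α → β → κ → Prop) (v : II α β κ → C) : Prop where
  zero : ∀ i, zz H i → v i = 0
  r1 : ∀ k, ∑ i : α, v (Sum.inl (some (Sum.inl i), none)) *
    v (Sum.inr (some (Sum.inl i), Sum.inl k)) = 0
  r2 : ∀ j k, v (Sum.inl (none, some (some (Sum.inl j)))) * v (Sum.inr (none, Sum.inl k)) +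
    v (Sum.inl (some (Sum.inr j), some (some (Sum.inl j)))) *
      v (Sum.inr (some (Sum.inr j), Sum.inl k)) = 0
  r3 : ∀ i k, v (Sum.inl (some (Sum.inl i), some (some (Sum.inr (i, k))))) *
    v (Sum.inr (some (Sum.inl i), Sum.inl k)) +
      ∑ j : β, v (Sum.inl (some (Sum.inr j), some (some (Sum.inr (i, k))))) *
        v (Sum.inr (some (Sum.inr j), Sum.inl k)) = 0
  r4 : ∀ i j k, H i j k → v (Sum.inl (some (Sum.inl i), some (some (Sum.inr (i, k))))) *
    v (Sum.inr (some (Sum.inl i), Sum.inr (i, j))) +
      v (Sum.inl (some (Sum.inr j), some (some (Sum.inr (i, k))))) *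
        v (Sum.inr (some (Sum.inr j), Sum.inr (i, j))) = 0
  r5 : ∀ i j, v (Sum.inl (some (Sum.inl i), some none)) *
    v (Sum.inr (some (Sum.inl i), Sum.inr (i, j))) +
      v (Sum.inl (some (Sum.inr j), some none)) *
        v (Sum.inr (some (Sum.inr j), Sum.inr (i, j))) = 0
  unit : ∀ i, uu H i → IsUnit (v i)

omit [DecidableEq α] [DecidableEq β] in
lemma sum_JJ (f : JJ α β → C) :
    ∑ c, f c = f none + (∑ i, f (some (Sum.inl i)) + ∑ j, f (some (Sum.inr j))) := by
  rw [Fintype.sum_option, Fintype.sum_sum_type]

omit [DecidableEq α] [DecidableEq β] in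
/-- The orthogonality relations in explicit form. -/
lemma gp_iff (v : II α β κ → C) :
    (((∀ i, zz H i → v i = 0) ∧ ∀ a b, TT H a b →
      ∑ c, v (Sum.inl (c, a)) * v (Sum.inr (c, b)) = 0) ∧ ∀ i, uu H i → IsUnit (v i)) ↔
        GP H v := by
  have key : (∀ i, zz H i → v i = 0) →
      ((∀ k, ∑ c, v (Sum.inl (c, none)) * v (Sum.inr (c, Sum.inl k)) =
          ∑ i : α, v (Sum.inl (some (Sum.inl i), none)) *
            v (Sum.inr (some (Sum.inl i), Sum.inl k))) ∧
      (∀ j k, ∑ c, v (Sum.inl (c, some (some (Sum.inl j)))) * v (Sum.inr (c, Sum.inl k)) =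
          v (Sum.inl (none, some (some (Sum.inl j)))) * v (Sum.inr (none, Sum.inl k)) +
          v (Sum.inl (some (Sum.inr j), some (some (Sum.inl j)))) *
            v (Sum.inr (some (Sum.inr j), Sum.inl k))) ∧
      (∀ i k k', ∑ c, v (Sum.inl (c, some (some (Sum.inr (i, k))))) *
          v (Sum.inr (c, Sum.inl k')) =
          v (Sum.inl (some (Sum.inl i), some (some (Sum.inr (i, k))))) *
            v (Sum.inr (some (Sum.inl i), Sum.inl k')) +
            ∑ j : β, v (Sum.inl (some (Sum.inr j), some (some (Sum.inr (i, k))))) *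
              v (Sum.inr (some (Sum.inr j), Sum.inl k'))) ∧
      (∀ i j k, ∑ c, v (Sum.inl (c, some (some (Sum.inr (i, k))))) *
          v (Sum.inr (c, Sum.inr (i, j))) =
          v (Sum.inl (some (Sum.inl i), some (some (Sum.inr (i, k))))) *
            v (Sum.inr (some (Sum.inl i), Sum.inr (i, j))) +
            v (Sum.inl (some (Sum.inr j), some (some (Sum.inr (i, k))))) *
              v (Sum.inr (some (Sum.inr j), Sum.inr (i, j)))) ∧
      (∀ i j, ∑ c, v (Sum.inl (c, some none)) * v (Sum.inr (c, Sum.inr (i, j))) =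
          v (Sum.inl (some (Sum.inl i), some none)) *
            v (Sum.inr (some (Sum.inl i), Sum.inr (i, j))) +
            v (Sum.inl (some (Sum.inr j), some none)) *
              v (Sum.inr (some (Sum.inr j), Sum.inr (i, j))))) := by
    intro hz
    have g0 : ∀ q : α × β, v (Sum.inr (none, Sum.inr q)) = 0 := fun q =>
      hz (Sum.inr (none, Sum.inr q)) trivial
    have g1 : ∀ i' (q : α × β), i' ≠ q.1 → v (Sum.inr (some (Sum.inl i'), Sum.inr q)) = 0 :=
      fun i' q h => hz (Sum.inr (some (Sum.inl i'), Sum.inr q)) h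
    have g2 : ∀ j' (q : α × β), j' ≠ q.2 → v (Sum.inr (some (Sum.inr j'), Sum.inr q)) = 0 :=
      fun i' q h => hz (Sum.inr (some (Sum.inr i'), Sum.inr q)) h
    have s1 : ∀ (f : α → C) (i : α), (∀ i', i' ≠ i → f i' = 0) → ∑ i', f i' = f i := fun f i h =>
      Finset.sum_eq_single i (fun i' _ hi => h i' hi) fun h => absurd (Finset.mem_univ i) h
    have s2 : ∀ (f : β → C) (i : β), (∀ i', i' ≠ i → f i' = 0) → ∑ i', f i' = f i := fun f i h =>
      Finset.sum_eq_single i (fun i' _ hi => h i' hi) fun h => absurd (Finset.mem_univ i) h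
    refine ⟨?_, ?_, ?_, ?_, ?_⟩
    · intro k
      rw [sum_JJ]
      have h1 : v (Sum.inl (none, none)) = 0 := hz (Sum.inl (none, none)) trivial
      have h2 : ∀ j : β, v (Sum.inl (some (Sum.inr j), none)) = 0 := fun j =>
        hz (Sum.inl (some (Sum.inr j), none)) trivial
      simp only [h1, h2, zero_mul, Finset.sum_const_zero, zero_add, add_zero]
    · intro j k
      rw [sum_JJ]
      have h1 : ∀ i : α, v (Sum.inl (some (Sum.inl i), some (some (Sum.inl j)))) = 0 := fun i =>
        hz (Sum.inl (some (Sum.inl i), some (some (Sum.inl j)))) trivial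
      simp only [h1, zero_mul, Finset.sum_const_zero, zero_add]
      congr 1
      refine s2 (fun j' => v (Sum.inl (some (Sum.inr j'), some (some (Sum.inl j)))) *
        v (Sum.inr (some (Sum.inr j'), Sum.inl k))) j ?_
      intro j' hj'
      have h2 : v (Sum.inl (some (Sum.inr j'), some (some (Sum.inl j)))) = 0 :=
        hz (Sum.inl (some (Sum.inr j'), some (some (Sum.inl j)))) hj'
      simp only [h2, zero_mul]
    · intro i k k'
      rw [sum_JJ]
      have h1 : v (Sum.inl (none, some (some (Sum.inr (i, k))))) = 0 :=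
        hz (Sum.inl (none, some (some (Sum.inr (i, k))))) trivial
      rw [h1, zero_mul, zero_add]
      congr 1
      refine s1 (fun i' => v (Sum.inl (some (Sum.inl i'), some (some (Sum.inr (i, k))))) *
        v (Sum.inr (some (Sum.inl i'), Sum.inl k'))) i ?_
      intro i' hi'
      have h2 : v (Sum.inl (some (Sum.inl i'), some (some (Sum.inr (i, k))))) = 0 :=
        hz (Sum.inl (some (Sum.inl i'), some (some (Sum.inr (i, k))))) hi'
      simp only [h2, zero_mul]
    · intro i j k
      rw [sum_JJ, g0, mul_zero, zero_add]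
      congr 1
      · refine s1 (fun i' => v (Sum.inl (some (Sum.inl i'), some (some (Sum.inr (i, k))))) *
          v (Sum.inr (some (Sum.inl i'), Sum.inr (i, j)))) i ?_
        intro i' hi'
        simp only [g1 i' (i, j) hi', mul_zero]
      · refine s2 (fun j' => v (Sum.inl (some (Sum.inr j'), some (some (Sum.inr (i, k))))) *
          v (Sum.inr (some (Sum.inr j'), Sum.inr (i, j)))) j ?_
        intro j' hj'
        simp only [g2 j' (i, j) hj', mul_zero]
    · intro i j
      rw [sum_JJ, g0, mul_zero, zero_add]
      congr 1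
      · refine s1 (fun i' => v (Sum.inl (some (Sum.inl i'), some none)) *
          v (Sum.inr (some (Sum.inl i'), Sum.inr (i, j)))) i ?_
        intro i' hi'
        simp only [g1 i' (i, j) hi', mul_zero]
      · refine s2 (fun j' => v (Sum.inl (some (Sum.inr j'), some none)) *
          v (Sum.inr (some (Sum.inr j'), Sum.inr (i, j)))) j ?_
        intro j' hj'
        simp only [g2 j' (i, j) hj', mul_zero]
  constructor
  · rintro ⟨⟨h1, h2⟩, h3⟩
    obtain ⟨k1, k2, k3, k4, k5⟩ := key h1
    exact
      { zero := h1
        r1 := fun k => (k1 k).symm.trans (h2 none (Sum.inl k) trivial)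
        r2 := fun j k => (k2 j k).symm.trans (h2 (some (some (Sum.inl j))) (Sum.inl k) trivial)
        r3 := fun i k => (k3 i k k).symm.trans (h2 (some (some (Sum.inr (i, k)))) (Sum.inl k) rfl)
        r4 := fun i j k h => (k4 i j k).symm.trans
          (h2 (some (some (Sum.inr (i, k)))) (Sum.inr (i, j)) ⟨rfl, h⟩)
        r5 := fun i j => (k5 i j).symm.trans (h2 (some none) (Sum.inr (i, j)) trivial)
        unit := h3 }
  · intro h
    obtain ⟨k1, k2, k3, k4, k5⟩ := key h.zero
    refine ⟨⟨h.zero, ?_⟩, h.unit⟩
    rintro (_ | _ | j | ⟨i, k⟩) (k' | ⟨i', j'⟩) ht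
    · exact (k1 k').trans (h.r1 k')
    · exact ht.elim
    · exact ht.elim
    · exact (k5 i' j').trans (h.r5 i' j')
    · exact (k2 j k').trans (h.r2 j k')
    · exact ht.elim
    · have h5 : k = k' := ht
      subst h5
      exact (k3 i k k).trans (h.r3 i k)
    · obtain ⟨h5, h6⟩ := ht
      have h5 : i = i' := h5
      subst h5
      exact (k4 i j' k).trans (h.r4 i j' k h6)

/-- The bilinear equations. -/
def BL (H : α → β → κ → Prop) [∀ i j k, Decidable (H i j k)] (x : α → C) (y : β → C) : Prop :=
  ∀ k, ∑ i, ∑ j, (if H i j k then x i * y j else 0) = 0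

omit [DecidableEq α] [DecidableEq β] in
/-- The consequences of the relations for a point with the inverse elements `a_i` and `b_j`. -/
lemma gp_rel [∀ i j k, Decidable (H i j k)] {v : II α β κ → C} (h : GP H v) {a : α → C}
    {b : β → C}
    (ha : ∀ i, v (Sum.inl (some (Sum.inl i), some none)) * a i = 1)
    (hb : ∀ j, v (Sum.inl (some (Sum.inr j), some (some (Sum.inl j)))) * b j = 1)
    {x : α → C} {y : β → C}
    (hx : ∀ i, x i = v (Sum.inl (some (Sum.inl i), none)) * a i)
    (hy : ∀ j, y j = v (Sum.inl (some (Sum.inr j), some none)) *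
      v (Sum.inl (none, some (some (Sum.inl j)))) * b j) :
    (∀ i, v (Sum.inl (some (Sum.inl i), none)) =
      x i * v (Sum.inl (some (Sum.inl i), some none))) ∧
    (∀ j, v (Sum.inl (some (Sum.inr j), some none)) * v (Sum.inl (none, some (some (Sum.inl j)))) =
      y j * v (Sum.inl (some (Sum.inr j), some (some (Sum.inl j))))) ∧
    (∀ j k, v (Sum.inl (some (Sum.inr j), some none)) * v (Sum.inr (some (Sum.inr j), Sum.inl k)) =
      -(v (Sum.inr (none, Sum.inl k)) * y j)) ∧
    (∀ i j k, v (Sum.inl (some (Sum.inl i), some none)) *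
      v (Sum.inl (some (Sum.inr j), some (some (Sum.inr (i, k))))) =
        if H i j k then v (Sum.inl (some (Sum.inl i), some (some (Sum.inr (i, k))))) *
          v (Sum.inl (some (Sum.inr j), some none)) else 0) ∧
    (∀ i k, v (Sum.inl (some (Sum.inl i), some none)) * v (Sum.inr (some (Sum.inl i), Sum.inl k)) =
      v (Sum.inr (none, Sum.inl k)) * ∑ j, (if H i j k then y j else 0)) ∧ BL H x y := by
  have e1 : ∀ i, v (Sum.inl (some (Sum.inl i), none)) =
      x i * v (Sum.inl (some (Sum.inl i), some none)) := by
    intro i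
    rw [hx]
    linear_combination (-v (Sum.inl (some (Sum.inl i), none))) * ha i
  have e2 : ∀ j, v (Sum.inl (some (Sum.inr j), some none)) *
      v (Sum.inl (none, some (some (Sum.inl j)))) =
      y j * v (Sum.inl (some (Sum.inr j), some (some (Sum.inl j)))) := by
    intro j
    rw [hy]
    linear_combination (-(v (Sum.inl (some (Sum.inr j), some none)) *
      v (Sum.inl (none, some (some (Sum.inl j)))))) * hb j
  have e3 : ∀ j k, v (Sum.inl (some (Sum.inr j), some none)) *
      v (Sum.inr (some (Sum.inr j), Sum.inl k)) = -(v (Sum.inr (none, Sum.inl k)) * y j) := by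
    intro j k
    have h1 := h.r2 j k
    rw [hy]
    linear_combination (v (Sum.inl (some (Sum.inr j), some none)) * b j) * h1 -
      (v (Sum.inl (some (Sum.inr j), some none)) *
        v (Sum.inr (some (Sum.inr j), Sum.inl k))) * hb j
  have e4 : ∀ i j k, v (Sum.inl (some (Sum.inl i), some none)) *
      v (Sum.inl (some (Sum.inr j), some (some (Sum.inr (i, k))))) =
        if H i j k then v (Sum.inl (some (Sum.inl i), some (some (Sum.inr (i, k))))) *
          v (Sum.inl (some (Sum.inr j), some none)) else 0 := by
    intro i j k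
    split_ifs with hH
    · have h1 := h.r4 i j k hH
      have h2 := h.r5 i j
      have h3 : IsUnit (v (Sum.inr (some (Sum.inr j), Sum.inr (i, j)))) :=
        h.unit (Sum.inr (some (Sum.inr j), Sum.inr (i, j))) rfl
      apply h3.mul_right_cancel
      linear_combination v (Sum.inl (some (Sum.inl i), some none)) * h1 -
        v (Sum.inl (some (Sum.inl i), some (some (Sum.inr (i, k))))) * h2
    · have h1 : v (Sum.inl (some (Sum.inr j), some (some (Sum.inr (i, k))))) = 0 :=
        h.zero (Sum.inl (some (Sum.inr j), some (some (Sum.inr (i, k))))) hH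
      rw [h1, mul_zero]
  have e5 : ∀ i k, v (Sum.inl (some (Sum.inl i), some none)) *
      v (Sum.inr (some (Sum.inl i), Sum.inl k)) =
      v (Sum.inr (none, Sum.inl k)) * ∑ j, (if H i j k then y j else 0) := by
    intro i k
    have h3 : IsUnit (v (Sum.inl (some (Sum.inl i), some (some (Sum.inr (i, k)))))) :=
      h.unit (Sum.inl (some (Sum.inl i), some (some (Sum.inr (i, k))))) rfl
    apply h3.mul_left_cancel
    have h1 := h.r3 i k
    have h4 : ∑ j : β, v (Sum.inl (some (Sum.inl i), some none)) *
        (v (Sum.inl (some (Sum.inr j), some (some (Sum.inr (i, k))))) *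
        v (Sum.inr (some (Sum.inr j), Sum.inl k))) =
        -(v (Sum.inl (some (Sum.inl i), some (some (Sum.inr (i, k))))) *
          (v (Sum.inr (none, Sum.inl k)) * ∑ j, (if H i j k then y j else 0))) := by
      rw [Finset.mul_sum, Finset.mul_sum, ← Finset.sum_neg_distrib]
      apply Finset.sum_congr rfl
      intro j _
      rw [← mul_assoc, e4 i j k]
      split_ifs with hH
      · linear_combination v (Sum.inl (some (Sum.inl i), some (some (Sum.inr (i, k))))) * e3 j k
      · ring
    rw [← Finset.mul_sum] at h4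
    linear_combination v (Sum.inl (some (Sum.inl i), some none)) * h1 - h4
  refine ⟨e1, e2, e3, e4, e5, ?_⟩
  intro k
  have h3 : IsUnit (v (Sum.inr (none, Sum.inl k))) := h.unit (Sum.inr (none, Sum.inl k)) trivial
  apply h3.mul_left_cancel
  rw [mul_zero]
  refine Eq.trans ?_ (h.r1 k)
  rw [Finset.mul_sum]
  apply Finset.sum_congr rfl
  intro i _
  rw [e1 i]
  have h4 : ∑ j, (if H i j k then x i * y j else 0) = x i * ∑ j, (if H i j k then y j else 0) := by
    rw [Finset.mul_sum]
    apply Finset.sum_congr rfl
    intro j _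
    rw [mul_ite, mul_zero]
  rw [h4]
  linear_combination (-x i) * e5 i k

end

end Pool.Agent.L5helper70.GH
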