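import Pool.Agent.L5helper70.GH.Gad

/-!
# Incidence gadgets for bilinear equations: schemes
-/

set_option autoImplicit false
set_option linter.unusedVariables false
set_option maxHeartbeats 1000000

open CategoryTheory AlgebraicGeometry MvPolynomial Pool.Agent.Y116.UV Pool.Agent.Z125.UN
  Pool.Agent.L5helper70.QF

namespace Pool.Agent.L5helper70.GH

section

variable {C : Type} [CommRing C] {α β κ : Type} [Fintype α] [Fintype β] [DecidableEq α]
  [DecidableEq β] {H : α → β → κ → Prop} [∀ i j k, Decidable (H i j k)]

/-- The point is determined by the parameters. -/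
lemma gp_inj {v w : II α β κ → C} (hv : GP H v) (hw : GP H w) {a : α → C} {b : β → C}
    (ha : ∀ i, v (Sum.inl (some (Sum.inl i), some none)) * a i = 1)
    (hb : ∀ j, v (Sum.inl (some (Sum.inr j), some (some (Sum.inl j)))) * b j = 1)
    {x : α → C} {y : β → C}
    (hx : ∀ i, x i = v (Sum.inl (some (Sum.inl i), none)) * a i)
    (hy : ∀ j, y j = v (Sum.inl (some (Sum.inr j), some none)) *
      v (Sum.inl (none, some (some (Sum.inl j)))) * b j)
    (hx' : ∀ i, x i = w (Sum.inl (some (Sum.inl i), none)) * a i)
    (hy' : ∀ j, y j = w (Sum.inl (some (Sum.inr j), some none)) *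
      w (Sum.inl (none, some (some (Sum.inl j)))) * b j)
    (ep : ∀ i, v (Sum.inl (some (Sum.inl i), some none)) =
      w (Sum.inl (some (Sum.inl i), some none)))
    (eq : ∀ j, v (Sum.inl (some (Sum.inr j), some none)) =
      w (Sum.inl (some (Sum.inr j), some none)))
    (eo : ∀ k, v (Sum.inr (none, Sum.inl k)) = w (Sum.inr (none, Sum.inl k)))
    (em : ∀ j, v (Sum.inl (some (Sum.inr j), some (some (Sum.inl j)))) =
      w (Sum.inl (some (Sum.inr j), some (some (Sum.inl j)))))
    (eu : ∀ i k, v (Sum.inl (some (Sum.inl i), some (some (Sum.inr (i, k))))) =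
      w (Sum.inl (some (Sum.inl i), some (some (Sum.inr (i, k))))))
    (es : ∀ i j, v (Sum.inr (some (Sum.inr j), Sum.inr (i, j))) =
      w (Sum.inr (some (Sum.inr j), Sum.inr (i, j)))) : v = w := by
  obtain ⟨v1, v2, v3, v4, v5, -⟩ := gp_rel hv ha hb hx hy
  obtain ⟨w1, w2, w3, w4, w5, -⟩ := gp_rel hw (fun i => by rw [← ep]; exact ha i)
    (fun j => by rw [← em]; exact hb j) hx' hy'
  have up : ∀ i, IsUnit (v (Sum.inl (some (Sum.inl i), some none))) := fun i =>
    hv.unit (Sum.inl (some (Sum.inl i), some none)) trivial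
  have uq : ∀ j, IsUnit (v (Sum.inl (some (Sum.inr j), some none))) := fun j =>
    hv.unit (Sum.inl (some (Sum.inr j), some none)) trivial
  have hz : ∀ i, zz H i → v i = w i := fun i h => by rw [hv.zero i h, hw.zero i h]
  funext s
  rcases s with ⟨c, d⟩ | ⟨c, d⟩
  · rcases d with _ | _ | j | ⟨i, k⟩
    · rcases c with _ | i | j
      · exact hz (Sum.inl (none, none)) trivial
      · rw [v1, w1, ep]
      · exact hz (Sum.inl (some (Sum.inr j), none)) trivial
    · rcases c with _ | i | j
      · exact hz (Sum.inl (none, some none)) trivial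
      · exact ep i
      · exact eq j
    · rcases c with _ | i | j'
      · have h1 := v2 j
        have h2 := w2 j
        rw [← em, ← h1, ← eq] at h2
        exact ((uq j).mul_left_cancel h2).symm
      · exact hz (Sum.inl (some (Sum.inl i), some (some (Sum.inl j)))) trivial
      · by_cases hj : j' = j
        · subst hj
          exact em j'
        · exact hz (Sum.inl (some (Sum.inr j'), some (some (Sum.inl j)))) hj
    · rcases c with _ | i' | j
      · exact hz (Sum.inl (none, some (some (Sum.inr (i, k))))) trivial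
      · by_cases hi : i' = i
        · subst hi
          exact eu i' k
        · exact hz (Sum.inl (some (Sum.inl i'), some (some (Sum.inr (i, k))))) hi
      · have h1 := v4 i j k
        have h2 := w4 i j k
        rw [← eu, ← eq, ← ep, ← h1] at h2
        exact ((up i).mul_left_cancel h2).symm
  · rcases d with k | ⟨i, j⟩
    · rcases c with _ | i | j
      · exact eo k
      · have h1 := v5 i k
        have h2 := w5 i k
        rw [← ep, ← eo, ← h1] at h2
        exact ((up i).mul_left_cancel h2).symm
      · have h1 := v3 j k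
        have h2 := w3 j k
        rw [← eq, ← eo, ← h1] at h2
        exact ((uq j).mul_left_cancel h2).symm
    · rcases c with _ | i' | j'
      · exact hz (Sum.inr (none, Sum.inr (i, j))) trivial
      · by_cases hi : i' = i
        · subst hi
          have h1 := hv.r5 i' j
          have h2 := hw.r5 i' j
          rw [← ep, ← eq, ← es] at h2
          apply (up i').mul_left_cancel
          linear_combination h1 - h2
        · exact hz (Sum.inr (some (Sum.inl i'), Sum.inr (i, j))) hi
      · by_cases hj : j' = j
        · subst hj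
          exact es i j'
        · exact hz (Sum.inr (some (Sum.inr j'), Sum.inr (i, j))) hj

/-- the vectors of the first kind -/
def cA (H : α → β → κ → Prop) [∀ i j k, Decidable (H i j k)] (x : α → C) (y : β → C)
    (p pi : α → C) (q qi : β → C) (mu : β → C) (cu : α × κ → C) : JJ α β → AV α β κ → C
  | some (Sum.inl i), none => x i * p i
  | some (Sum.inr _), none => 0
  | none, none => 0
  | none, some none => 0
  | some (Sum.inl i), some none => p i
  | some (Sum.inr j), some none => q j
  | none, some (some (Sum.inl j)) => qi j * y j * mu j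
  | some (Sum.inl _), some (some (Sum.inl _)) => 0
  | some (Sum.inr j'), some (some (Sum.inl j)) => if j' = j then mu j else 0
  | none, some (some (Sum.inr _)) => 0
  | some (Sum.inl i'), some (some (Sum.inr r)) => if i' = r.1 then cu r else 0
  | some (Sum.inr j), some (some (Sum.inr r)) => if H r.1 j r.2 then cu r * q j * pi r.1 else 0

/-- the vectors of the second kind -/
def cB (H : α → β → κ → Prop) [∀ i j k, Decidable (H i j k)] (y : β → C)
    (pi : α → C) (q qi : β → C) (om : κ → C) (gs : α × β → C) : JJ α β → BV α β κ → C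
  | none, Sum.inl k => om k
  | some (Sum.inl i), Sum.inl k => pi i * (om k * ∑ j, (if H i j k then y j else 0))
  | some (Sum.inr j), Sum.inl k => -(qi j * om k * y j)
  | none, Sum.inr _ => 0
  | some (Sum.inl i'), Sum.inr r => if i' = r.1 then -(pi r.1 * q r.2 * gs r) else 0
  | some (Sum.inr j'), Sum.inr r => if j' = r.2 then gs r else 0

/-- The point given by the parameters. -/
lemma gp_surj {x : α → C} {y : β → C} (hb : BL H x y) {p pi : α → C} (hp : ∀ i, p i * pi i = 1)
    {q qi : β → C} (hq : ∀ j, q j * qi j = 1) {mu : β → C} (hmu : ∀ j, IsUnit (mu j))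
    {cu : α × κ → C} (hcu : ∀ r, IsUnit (cu r)) {om : κ → C} (hom : ∀ k, IsUnit (om k))
    {gs : α × β → C} (hgs : ∀ r, IsUnit (gs r)) :
    GP H (Sum.elim (fun r => cA H x y p pi q qi mu cu r.1 r.2)
      (fun r => cB H y pi q qi om gs r.1 r.2) : II α β κ → C) where
  zero := by
    rintro (⟨c, d⟩ | ⟨c, d⟩) h
    · rcases d with _ | _ | j | ⟨i, k⟩ <;> rcases c with _ | i' | j'
      · rfl
      · exact h.elim
      · rfl
      · rfl
      · exact h.elim
      · exact h.elim
      · exact h.elim
      · rfl
      · exact if_neg h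
      · rfl
      · exact if_neg h
      · exact if_neg h
    · rcases d with k | ⟨i, j⟩ <;> rcases c with _ | i' | j'
      · exact h.elim
      · exact h.elim
      · exact h.elim
      · rfl
      · exact if_neg h
      · exact if_neg h
  r1 k := by
    have h1 : ∀ i : α, (Sum.elim (fun r => cA H x y p pi q qi mu cu r.1 r.2)
        (fun r => cB H y pi q qi om gs r.1 r.2) : II α β κ → C)
          (Sum.inl (some (Sum.inl i), none)) * (Sum.elim
            (fun r => cA H x y p pi q qi mu cu r.1 r.2) (fun r => cB H y pi q qi om gs r.1 r.2) :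
              II α β κ → C) (Sum.inr (some (Sum.inl i), Sum.inl k)) =
        om k * ∑ j, (if H i j k then x i * y j else 0) := by
      intro i
      have h2 : ∑ j, (if H i j k then x i * y j else 0) =
          x i * ∑ j, (if H i j k then y j else 0) := by
        rw [Finset.mul_sum]
        apply Finset.sum_congr rfl
        intro j _
        rw [mul_ite, mul_zero]
      rw [h2]
      change x i * p i * (pi i * (om k * ∑ j, (if H i j k then y j else 0))) = _
      linear_combination (x i * om k * ∑ j, (if H i j k then y j else 0)) * hp i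
    rw [Finset.sum_congr rfl fun i _ => h1 i, ← Finset.mul_sum, hb k, mul_zero]
  r2 j k := by
    change qi j * y j * mu j * om k + (if j = j then mu j else 0) * -(qi j * om k * y j) = 0
    rw [if_pos rfl]
    ring
  r3 i k := by
    change (if i = i then cu (i, k) else 0) * (pi i * (om k * ∑ j, (if H i j k then y j else 0))) +
      ∑ j, (if H i j k then cu (i, k) * q j * pi i else 0) * -(qi j * om k * y j) = 0
    rw [if_pos rfl]
    have h1 : ∀ j, (if H i j k then cu (i, k) * q j * pi i else 0) * -(qi j * om k * y j) =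
        -(cu (i, k) * (pi i * om k)) * (if H i j k then y j else 0) := by
      intro j
      split_ifs
      · linear_combination (-cu (i, k) * pi i * om k * y j) * hq j
      · ring
    rw [Finset.sum_congr rfl fun j _ => h1 j, ← Finset.mul_sum]
    ring
  r4 i j k hH := by
    change (if i = i then cu (i, k) else 0) * (if i = i then -(pi i * q j * gs (i, j)) else 0) +
      (if H i j k then cu (i, k) * q j * pi i else 0) * (if j = j then gs (i, j) else 0) = 0
    rw [if_pos rfl, if_pos rfl, if_pos rfl, if_pos hH]
    ring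
  r5 i j := by
    change p i * (if i = i then -(pi i * q j * gs (i, j)) else 0) +
      q j * (if j = j then gs (i, j) else 0) = 0
    rw [if_pos rfl, if_pos rfl]
    linear_combination (-(q j * gs (i, j))) * hp i
  unit := by
    have up : ∀ i, IsUnit (p i) := fun i => IsUnit.of_mul_eq_one _ (hp i)
    have upi : ∀ i, IsUnit (pi i) := fun i => IsUnit.of_mul_eq_one_right _ (hp i)
    have uq : ∀ j, IsUnit (q j) := fun j => IsUnit.of_mul_eq_one _ (hq j)
    rintro (⟨c, d⟩ | ⟨c, d⟩) h
    · rcases d with _ | _ | j | ⟨i, k⟩ <;> rcases c with _ | i' | j'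
      · exact h.elim
      · exact h.elim
      · exact h.elim
      · exact h.elim
      · exact up i'
      · exact uq j'
      · exact h.elim
      · exact h.elim
      · change IsUnit (if j' = j then mu j else 0)
        have h : j' = j := h
        rw [if_pos h]
        exact hmu j
      · exact h.elim
      · change IsUnit (if i' = i then cu (i, k) else 0)
        have h : i' = i := h
        rw [if_pos h]
        exact hcu _
      · change IsUnit (if H i j' k then cu (i, k) * q j' * pi i else 0)
        have h : H i j' k := h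
        rw [if_pos h]
        exact ((hcu _).mul (uq _)).mul (upi _)
    · rcases d with k | ⟨i, j⟩ <;> rcases c with _ | i' | j'
      · exact hom k
      · exact h.elim
      · exact h.elim
      · exact h.elim
      · change IsUnit (if i' = i then -(pi i * q j * gs (i, j)) else 0)
        have h : i' = i := h
        rw [if_pos h]
        exact (((upi _).mul (uq _)).mul (hgs _)).neg
      · change IsUnit (if j' = j then gs (i, j) else 0)
        have h : j' = j := h
        rw [if_pos h]
        exact hgs _

end

section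

variable {R : Type} [CommRing R] {P : Sch R → Prop} {sep : Prop} (hP : Bnd sep P)

include hP

/-- adjoining inverse elements -/
lemma addinvs {σ ι : Type} [Finite ι] {Φ : Cond R σ} (e : ι → MvPolynomial σ R)
    (he : ∀ (C : Type) [CommRing C] [Algebra R C] (v : σ → C), Φ C v → ∀ i, IsUnit (aeval v (e i)))
    (h : Pr P Φ) : Pr P (fun C _ _ v => Φ C (fun s => v (Sum.inl s)) ∧
      ∀ i, aeval (fun s => v (Sum.inl s)) (e i) * v (Sum.inr i) = 1 : Cond R (σ ⊕ ι)) := by
  have hr : Rp (fun C _ _ v => Φ C (fun s => v (Sum.inl s)) ∧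
      ∀ i, aeval (fun s => v (Sum.inl s)) (e i) * v (Sum.inr i) = 1 : Cond R (σ ⊕ ι)) := by
    refine ((h.rp.free ι).cls fun i => rename Sum.inl (e i) * X (Sum.inr i) - 1).congr ?_
    intro C _ _ v
    simp only [map_sub, map_mul, map_one, aeval_X, aeval_rename, sub_eq_zero, Function.comp_def]
  refine h.pull hP hr (fun s => X (Sum.inl s)) ?_ ?_ ?_
  · intro C _ _ v hv
    simp only [aeval_X]
    exact hv.1
  · intro C _ _ v w hv hw hvw
    have e0 : (fun s => v (Sum.inl s)) = fun s => w (Sum.inl s) := by
      funext s
      simpa only [aeval_X] using hvw s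
    funext s
    rcases s with s | i
    · exact congrFun e0 s
    · have h1 := hv.2 i
      have h2 := hw.2 i
      rw [← e0, ← h1] at h2
      exact ((IsUnit.of_mul_eq_one _ h1).mul_left_cancel h2).symm
  · intro C _ _ v hv
    choose y hy using fun i => (he C v hv i).exists_right_inv
    refine ⟨Sum.elim v y, ⟨hv, hy⟩, fun s => ?_⟩
    rw [aeval_X, Sum.elim_inl]

variable {α β κ : Type} [Fintype α] [Fintype β] [Fintype κ] [DecidableEq α]
  [DecidableEq β] [DecidableEq κ] (H : α → β → κ → Prop) [∀ i j k, Decidable (H i j k)]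

omit hP in
/-- the condition of the bilinear equations -/
def BLc : Cond R (α ⊕ β) := fun C _ _ v =>
  BL H (fun i => v (Sum.inl i)) fun j => v (Sum.inr j)

omit hP [Fintype κ] [DecidableEq α] [DecidableEq β] [DecidableEq κ] in
lemma rp_blc : Rp (BLc (R := R) H) := by
  refine ((rp_true R (α ⊕ β)).cls fun k : κ =>
    ∑ i, ∑ j, (if H i j k then X (Sum.inl i) * X (Sum.inr j) else 0)).congr ?_
  intro C _ _ v
  have h1 : ∀ k : κ, aeval v (∑ i, ∑ j, (if H i j k then X (Sum.inl i) * X (Sum.inr j) else 0) :
      MvPolynomial (α ⊕ β) R) =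
      ∑ i, ∑ j, (if H i j k then v (Sum.inl i) * v (Sum.inr j) else 0) := by
    intro k
    rw [map_sum]
    apply Finset.sum_congr rfl
    intro i _
    rw [map_sum]
    apply Finset.sum_congr rfl
    intro j _
    split_ifs
    · rw [map_mul, aeval_X, aeval_X]
    · rw [map_zero]
  simp only [h1, true_and]
  rfl

/-- The bilinear equations with coefficients `0` and `1`. -/
theorem pr_blc (hX : Sec P) (hY : GC (R := R) P) : Pr P (BLc (R := R) H) := by
  classical
  -- the orthogonality system
  have h1 : Pr P (fun C _ _ v => GP H v : Cond R (II α β κ)) := by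
    refine (pr_osu hP hX hY (J := JJ α β) (A := AV α β κ) (B := BV α β κ) (TT H)
      (Finset.univ.filter (uu H)) (zz H)).congr ?_
    intro C _ _ v
    rw [← gp_iff]
    simp only [OS, Finset.mem_filter, Finset.mem_univ, true_and]
  have h2 := addinvs hP (ι := α ⊕ β) (Sum.elim
    (fun i => X (Sum.inl (some (Sum.inl i), some none)))
    (fun j => X (Sum.inl (some (Sum.inr j), some (some (Sum.inl j)))))) (by
      intro C _ _ v hv
      rintro (i | j)
      · rw [Sum.elim_inl, aeval_X]
        exact hv.unit (Sum.inl (some (Sum.inl i), some none)) trivial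
      · rw [Sum.elim_inr, aeval_X]
        exact hv.unit (Sum.inl (some (Sum.inr j), some (some (Sum.inl j)))) rfl) h1
  refine dropunits hP hX (τ := α ⊕ (β ⊕ (κ ⊕ (β ⊕ (α × κ ⊕ α × β))))) (rp_blc H) ?_
  refine h2.push (Sum.elim (Sum.elim
    (fun i => X (Sum.inl (Sum.inl (some (Sum.inl i), none))) * X (Sum.inr (Sum.inl i)))
    (fun j => X (Sum.inl (Sum.inl (some (Sum.inr j), some none))) *
      X (Sum.inl (Sum.inl (none, some (some (Sum.inl j))))) * X (Sum.inr (Sum.inr j))))
    (Sum.elim (fun i => X (Sum.inl (Sum.inl (some (Sum.inl i), some none))))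
    (Sum.elim (fun j => X (Sum.inl (Sum.inl (some (Sum.inr j), some none))))
    (Sum.elim (fun k => X (Sum.inl (Sum.inr (none, Sum.inl k))))
    (Sum.elim (fun j => X (Sum.inl (Sum.inl (some (Sum.inr j), some (some (Sum.inl j))))))
    (Sum.elim (fun r => X (Sum.inl (Sum.inl (some (Sum.inl r.1), some (some (Sum.inr r))))))
    (fun r => X (Sum.inl (Sum.inr (some (Sum.inr r.2), Sum.inr r)))))))))) ?_ ?_ ?_
  · intro C _ _ v hv
    obtain ⟨h3, h4⟩ := hv
    have ha := fun i => h4 (Sum.inl i)
    have hb := fun j => h4 (Sum.inr j)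
    simp only [Sum.elim_inl, Sum.elim_inr, aeval_X] at ha hb
    refine ⟨?_, ?_⟩
    · simp only [Sum.elim_inl, Sum.elim_inr, aeval_X, map_mul, BLc]
      exact (gp_rel h3 ha hb (fun i => rfl) (fun j => rfl)).2.2.2.2.2
    · rintro (i | j | k | j | ⟨i, k⟩ | ⟨i, j⟩)
      · simp only [Sum.elim_inl, Sum.elim_inr, aeval_X]
        exact h3.unit (Sum.inl (some (Sum.inl i), some none)) trivial
      · simp only [Sum.elim_inl, Sum.elim_inr, aeval_X]
        exact h3.unit (Sum.inl (some (Sum.inr j), some none)) trivial
      · simp only [Sum.elim_inl, Sum.elim_inr, aeval_X]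
        exact h3.unit (Sum.inr (none, Sum.inl k)) trivial
      · simp only [Sum.elim_inl, Sum.elim_inr, aeval_X]
        exact h3.unit (Sum.inl (some (Sum.inr j), some (some (Sum.inl j)))) rfl
      · simp only [Sum.elim_inl, Sum.elim_inr, aeval_X]
        exact h3.unit (Sum.inl (some (Sum.inl i), some (some (Sum.inr (i, k))))) rfl
      · simp only [Sum.elim_inr, aeval_X]
        exact h3.unit (Sum.inr (some (Sum.inr j), Sum.inr (i, j))) rfl
  · intro C _ _ v w hv hw hvw
    obtain ⟨h3, h4⟩ := hv
    obtain ⟨h3', h4'⟩ := hw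
    have ha := fun i => h4 (Sum.inl i)
    have hb := fun j => h4 (Sum.inr j)
    have ha' := fun i => h4' (Sum.inl i)
    have hb' := fun j => h4' (Sum.inr j)
    simp only [Sum.elim_inl, Sum.elim_inr, aeval_X] at ha hb ha' hb'
    have ex := fun i => hvw (Sum.inl (Sum.inl i))
    have ey := fun i => hvw (Sum.inl (Sum.inr i))
    have ep := fun i => hvw (Sum.inr (Sum.inl i))
    have eq := fun i => hvw (Sum.inr (Sum.inr (Sum.inl i)))
    have eo := fun i => hvw (Sum.inr (Sum.inr (Sum.inr (Sum.inl i))))
    have em := fun i => hvw (Sum.inr (Sum.inr (Sum.inr (Sum.inr (Sum.inl i)))))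
    have eu := fun i => hvw (Sum.inr (Sum.inr (Sum.inr (Sum.inr (Sum.inr (Sum.inl i))))))
    have es := fun i => hvw (Sum.inr (Sum.inr (Sum.inr (Sum.inr (Sum.inr (Sum.inr i))))))
    simp only [Sum.elim_inl, Sum.elim_inr, aeval_X, map_mul] at ex ey ep eq eo em eu es
    have ea : ∀ i, v (Sum.inr (Sum.inl i)) = w (Sum.inr (Sum.inl i)) := by
      intro i
      have h5 := ha i
      have h6 := ha' i
      rw [← ep, ← h5] at h6
      exact ((IsUnit.of_mul_eq_one _ h5).mul_left_cancel h6).symm
    have eb : ∀ j, v (Sum.inr (Sum.inr j)) = w (Sum.inr (Sum.inr j)) := by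
      intro j
      have h5 := hb j
      have h6 := hb' j
      rw [← em, ← h5] at h6
      exact ((IsUnit.of_mul_eq_one _ h5).mul_left_cancel h6).symm
    have e0 : (fun s => v (Sum.inl s)) = fun s => w (Sum.inl s) := by
      refine gp_inj h3 h3' ha hb (fun i => rfl) (fun j => rfl) (fun i => ?_) (fun j => ?_) ep eq eo
        em (fun i k => eu (i, k)) (fun i j => es (i, j))
      · rw [ex i, ea i]
      · rw [ey j, eb j]
    funext s
    rcases s with s | (i | j)
    · exact congrFun e0 s
    · exact ea i
    · exact eb j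
  · intro C _ _ v hv
    obtain ⟨h3, h4⟩ := hv
    choose pi hpi using fun i => (h4 (Sum.inl i)).exists_right_inv
    choose qi hqi using fun j => (h4 (Sum.inr (Sum.inl j))).exists_right_inv
    choose mi hmi using fun j => (h4 (Sum.inr (Sum.inr (Sum.inr (Sum.inl j))))).exists_right_inv
    have h5 := gp_surj (H := H) h3 hpi hqi (fun j => h4 (Sum.inr (Sum.inr (Sum.inr (Sum.inl j)))))
      (fun r => h4 (Sum.inr (Sum.inr (Sum.inr (Sum.inr (Sum.inl r))))))
      (fun k => h4 (Sum.inr (Sum.inr (Sum.inl k))))
      (fun r => h4 (Sum.inr (Sum.inr (Sum.inr (Sum.inr (Sum.inr r))))))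
    refine ⟨Sum.elim _ (Sum.elim pi mi), ⟨h5, ?_⟩, ?_⟩
    · rintro (i | j)
      · rw [Sum.elim_inl, aeval_X]
        exact hpi i
      · rw [Sum.elim_inr, aeval_X]
        change (if j = j then _ else 0) * mi j = 1
        rw [if_pos rfl]
        exact hmi j
    · rintro ((i | j) | (i | j | k | j | ⟨i, k⟩ | ⟨i, j⟩))
      · simp only [Sum.elim_inl, Sum.elim_inr, aeval_X, map_mul, cA]
        linear_combination v (Sum.inl (Sum.inl i)) * hpi i
      · simp only [Sum.elim_inl, Sum.elim_inr, aeval_X, map_mul, cA]
        have h6 := hqi j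
        have h7 := hmi j
        linear_combination (v (Sum.inl (Sum.inr j)) *
          v (Sum.inr (Sum.inr (Sum.inr (Sum.inr (Sum.inl j))))) * mi j) * h6 +
            v (Sum.inl (Sum.inr j)) * h7
      · simp only [Sum.elim_inl, Sum.elim_inr, aeval_X, cA]
      · simp only [Sum.elim_inl, Sum.elim_inr, aeval_X, cA]
      · simp only [Sum.elim_inl, Sum.elim_inr, aeval_X, cB]
      · simp only [Sum.elim_inl, Sum.elim_inr, aeval_X, cA, if_true]
      · simp only [Sum.elim_inl, Sum.elim_inr, aeval_X, cA, if_true]
      · simp only [Sum.elim_inr, Sum.elim_inl, aeval_X, cB, if_true]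

end

end Pool.Agent.L5helper70.GH
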