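import Pool.Agent.L5helper70.GH.Fin

/-!
# Algebras with equations over the integers
-/

set_option autoImplicit false
set_option linter.unusedVariables false
set_option maxHeartbeats 1000000

open CategoryTheory AlgebraicGeometry MvPolynomial Pool.Agent.Y116.UV Pool.Agent.Z125.UN
  Pool.Agent.L5helper70.QF

namespace Pool.Agent.L5helper70.GH

variable {R : Type} [CommRing R]

section pres

/-- a presentation with any finite set of variables -/
lemma pres_fin {S : Set R} {A : Type} [CommRing A] [Algebra R A] {V : Type} [Fintype V]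
    (φ : MvPolynomial V R →ₐ[R] A) (G : Finset (MvPolynomial V R)) (hs : Function.Surjective φ)
    (hK : RingHom.ker φ = Ideal.span (G : Set (MvPolynomial V R)))
    (hc : ∀ g ∈ G, ∀ m, coeff m g ∈ S) :
    ∃ (n : ℕ) (φ : MvPolynomial (Fin n) R →ₐ[R] A) (G : Finset (MvPolynomial (Fin n) R)),
      Function.Surjective φ ∧ RingHom.ker φ = Ideal.span (G : Set (MvPolynomial (Fin n) R)) ∧
      ∀ g ∈ G, ∀ m, coeff m g ∈ S := by
  classical
  let e : V ≃ Fin (Fintype.card V) := Fintype.equivFin V
  let E : MvPolynomial V R ≃ₐ[R] MvPolynomial (Fin (Fintype.card V)) R := renameEquiv R e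
  refine ⟨Fintype.card V, φ.comp (E.symm : _ →ₐ[R] _), G.image E, ?_, ?_, ?_⟩
  · intro a
    obtain ⟨p, rfl⟩ := hs a
    refine ⟨E p, ?_⟩
    change φ (E.symm (E p)) = φ p
    rw [E.symm_apply_apply]
  · let E1 : MvPolynomial V R →+* MvPolynomial (Fin (Fintype.card V)) R :=
      (rename e : MvPolynomial V R →ₐ[R] _).toRingHom
    have h1 : (G.image E : Set (MvPolynomial (Fin (Fintype.card V)) R)) =
        E1 '' (G : Set (MvPolynomial V R)) := by
      rw [Finset.coe_image]
      rfl
    rw [h1, ← Ideal.map_span, ← hK]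
    ext p
    constructor
    · intro hp
      have h2 : E.symm p ∈ RingHom.ker φ := hp
      have h3 := Ideal.mem_map_of_mem E1 h2
      have h4 : E1 (E.symm p) = p := E.apply_symm_apply p
      rwa [h4] at h3
    · intro hp
      obtain ⟨q, hq, rfl⟩ := (Ideal.mem_map_iff_of_surjective E1
        (fun p => ⟨E.symm p, E.apply_symm_apply p⟩)).mp hp
      change φ (E.symm (E q)) = 0
      rw [E.symm_apply_apply]
      exact hq
  · intro g hg m
    obtain ⟨g, hg', rfl⟩ := Finset.mem_image.mp hg
    have h1 : m = Finsupp.mapDomain e (Finsupp.mapDomain e.symm m) := by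
      rw [← Finsupp.mapDomain_comp]
      simp
    change coeff m (rename e g) ∈ S
    rw [h1, coeff_rename_mapDomain e e.injective]
    exact hc g hg' _

/-- relations with integer coefficients can be replaced by sums of monomials -/
lemma pres_zero_one {A : Type} [CommRing A] [Algebra R A] {n : ℕ}
    (φ : MvPolynomial (Fin n) R →ₐ[R] A) (G : Finset (MvPolynomial (Fin n) R))
    (hs : Function.Surjective φ)
    (hK : RingHom.ker φ = Ideal.span (G : Set (MvPolynomial (Fin n) R)))
    (hc : ∀ g ∈ G, ∀ m, ∃ z : ℤ, (z : R) = coeff m g) :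
    ∃ (n : ℕ) (φ : MvPolynomial (Fin n) R →ₐ[R] A) (G : Finset (MvPolynomial (Fin n) R)),
      Function.Surjective φ ∧ RingHom.ker φ = Ideal.span (G : Set (MvPolynomial (Fin n) R)) ∧
      ∀ g ∈ G, ∀ m, coeff m g ∈ ({0, 1} : Set R) := by
  classical
  have hc' : ∀ (g : MvPolynomial (Fin n) R) (m : Fin n →₀ ℕ), ∃ z : ℤ, g ∈ G → (z : R) = coeff m g := by
    intro g m
    by_cases hg : g ∈ G
    · obtain ⟨z, hz⟩ := hc g hg m
      exact ⟨z, fun _ => hz⟩
    · exact ⟨0, fun h => absurd h hg⟩
  choose w hw using hc'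
  let K : ℕ := ∑ g ∈ G, ∑ m ∈ g.support, (w g m).natAbs
  let z : (Fin n →₀ ℕ) → MvPolynomial (Fin n) R → Cs K := fun m g =>
    if h : w g m ∈ Finset.Icc (-(K : ℤ)) K then ⟨_, h⟩ else zr K
  have hz : ∀ g ∈ G, ∀ m ∈ g.support, (((z m g).1 : ℤ) : R) = coeff m g := by
    intro g hg m hm
    have h1 : (w g m).natAbs ≤ ∑ m ∈ g.support, (w g m).natAbs :=
      Finset.single_le_sum (f := fun m : Fin n →₀ ℕ => (w g m).natAbs)
        (fun _ _ => Nat.zero_le _) hm
    have h2 : ∑ m ∈ g.support, (w g m).natAbs ≤ K :=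
      Finset.single_le_sum (f := fun g : MvPolynomial (Fin n) R =>
        ∑ m ∈ g.support, (w g m).natAbs) (fun _ _ => Nat.zero_le _) hg
    have h3 : w g m ∈ Finset.Icc (-(K : ℤ)) K := by
      rw [Finset.mem_Icc]
      omega
    have h4 : z m g = ⟨_, h3⟩ := dif_pos h3
    rw [h4]
    exact hw g m hg
  refine pres_fin (V := Vs n K) (φ.comp (sb R n K)) (Finset.univ.image (rel K G z)) ?_ ?_ ?_
  · intro a
    obtain ⟨p, rfl⟩ := hs a
    refine ⟨rename Sum.inl p, ?_⟩
    change φ (sb R n K (rename Sum.inl p)) = φ p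
    congr 1
    rw [sb, aeval_rename]
    exact aeval_X_left_apply _
  · rw [ker_sb K G z hz φ hK, rI]
    congr 1
    simp
  · intro g hg m
    obtain ⟨k, -, rfl⟩ := Finset.mem_image.mp hg
    exact coeff_ms_mem _ _

end pres

section

variable {P : Sch R → Prop} {sep : Prop}

/-- from the hypergraphs to the trilinear forms with coefficients `0` and `1` -/
lemma hyp_of_trip (hH : ∀ (a b c : ℕ) (H : Finset (Fin a × Fin b × Fin c)), P (aff R (Trip R H)))
    (a b c : ℕ) (T : Fin a → Fin b → Fin c → R) (hT : ∀ i j k, T i j k ∈ ({0, 1} : Set R)) :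
    P (aff R (Hyp T)) := by
  classical
  let H : Finset (Fin a × Fin b × Fin c) := Finset.univ.filter fun h => T h.1 h.2.1 h.2.2 = 1
  have h1 : T = fun i j k => if (i, j, k) ∈ H then (1 : R) else 0 := by
    funext i j k
    have hm : (i, j, k) ∈ H ↔ T i j k = 1 := by
      rw [Finset.mem_filter]
      exact ⟨fun h => h.2, fun h => ⟨Finset.mem_univ _, h⟩⟩
    by_cases h : T i j k = 1
    · rw [if_pos (hm.mpr h), h]
    · rw [if_neg fun h2 => h (hm.mp h2)]
      rcases hT i j k with h2 | h2
      · exact h2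
      · exact absurd h2 h
  have h2 := hH a b c H
  unfold Trip at h2
  rw [← tri_ind, ← h1] at h2
  exact h2

/-- an algebra with a presentation with integer coefficients -/
theorem int_case (hP : Uni sep P)
    (hH : ∀ (a b c : ℕ) (H : Finset (Fin a × Fin b × Fin c)), P (aff R (Trip R H)))
    {A : Type} [CommRing A] [Algebra R A] [Algebra.FiniteType R A] {n : ℕ}
    (φ : MvPolynomial (Fin n) R →ₐ[R] A) (G : Finset (MvPolynomial (Fin n) R))
    (hs : Function.Surjective φ)
    (hK : RingHom.ker φ = Ideal.span (G : Set (MvPolynomial (Fin n) R)))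
    (hc : ∀ g ∈ G, ∀ m, ∃ z : ℤ, (z : R) = coeff m g) : P (aff R A) := by
  classical
  obtain ⟨n, φ, G, hs, hK, hc⟩ := pres_zero_one φ G hs hK hc
  let D : ℕ := 1 + ∑ g ∈ G, ∑ m ∈ g.support, m.degree
  refine of_cone hP (Or.inl rfl) (Or.inr rfl) (hyp_of_trip hH) (D := D) (by omega) G φ ?_ hs hK hc
  intro g hg m hm
  have h1 : m.degree ≤ ∑ m ∈ g.support, m.degree :=
    Finset.single_le_sum (f := fun m : Fin n →₀ ℕ => m.degree) (fun _ _ => Nat.zero_le _) hm
  have h2 : ∑ m ∈ g.support, m.degree ≤ ∑ g ∈ G, ∑ m ∈ g.support, m.degree :=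
    Finset.single_le_sum (f := fun g : MvPolynomial (Fin n) R => ∑ m ∈ g.support, m.degree)
      (fun _ _ => Nat.zero_le _) hg
  omega

/-- the closed subscheme of the affine space defined by polynomials with integer coefficients -/
theorem int_affine (hP : Uni sep P)
    (hH : ∀ (a b c : ℕ) (H : Finset (Fin a × Fin b × Fin c)), P (aff R (Trip R H)))
    {n m : ℕ} (f : Fin m → MvPolynomial (Fin n) ℤ) :
    P (aff R (MvPolynomial (Fin n) R ⧸
      Ideal.span (Set.range fun i => map (Int.castRingHom R) (f i)))) := by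
  classical
  refine int_case hP hH (Ideal.Quotient.mkₐ R _)
    (Finset.univ.image fun i => map (Int.castRingHom R) (f i)) (Ideal.Quotient.mkₐ_surjective R _)
    ?_ ?_
  · rw [Finset.coe_image, Finset.coe_univ, Set.image_univ]
    exact Ideal.mk_ker
  · intro g hg m
    obtain ⟨i, -, rfl⟩ := Finset.mem_image.mp hg
    exact ⟨coeff m (f i), by rw [coeff_map]; rfl⟩

end

section prime

variable {k : Type} [Field k]

/-- the elements of a prime field are quotients of integers -/
lemma quot_of_prime (hk : (⊥ : Subfield k) = ⊤) (x : k) :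
    ∃ a b : ℤ, (b : k) ≠ 0 ∧ (b : k) * x = a := by
  let F : Subfield k :=
    { carrier := {x | ∃ a b : ℤ, (b : k) ≠ 0 ∧ (b : k) * x = a}
      mul_mem' := by
        rintro x y ⟨a, b, hb, h⟩ ⟨c, d, hd, h'⟩
        refine ⟨a * c, b * d, by push_cast; exact mul_ne_zero hb hd, ?_⟩
        push_cast
        rw [← h, ← h']
        ring
      one_mem' := ⟨1, 1, by simp, by simp⟩
      add_mem' := by
        rintro x y ⟨a, b, hb, h⟩ ⟨c, d, hd, h'⟩
        refine ⟨a * d + b * c, b * d, by push_cast; exact mul_ne_zero hb hd, ?_⟩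
        push_cast
        rw [← h, ← h']
        ring
      zero_mem' := ⟨0, 1, by simp, by simp⟩
      neg_mem' := by
        rintro x ⟨a, b, hb, h⟩
        refine ⟨-a, b, hb, ?_⟩
        push_cast
        rw [← h]
        ring
      inv_mem' := by
        rintro x ⟨a, b, hb, h⟩
        by_cases hx : x = 0
        · exact ⟨0, 1, by simp, by simp [hx]⟩
        · refine ⟨b, a, ?_, ?_⟩
          · rw [← h]
            exact mul_ne_zero hb hx
          · rw [← h, mul_assoc, mul_inv_cancel₀ hx, mul_one] }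
  have h : x ∈ (⊤ : Subfield k) := Subfield.mem_top x
  rw [← hk] at h
  exact (bot_le : (⊥ : Subfield k) ≤ F) h

/-- clearing the denominators of a polynomial -/
lemma clear_of_prime (hk : (⊥ : Subfield k) = ⊤) {σ : Type} (g : MvPolynomial σ k) :
    ∃ b : k, b ≠ 0 ∧ ∀ m, ∃ z : ℤ, (z : k) = coeff m (C b * g) := by
  classical
  choose a b hb hab using quot_of_prime hk
  refine ⟨∏ m ∈ g.support, (b (coeff m g) : k), Finset.prod_ne_zero_iff.mpr fun m _ => hb _, ?_⟩
  intro m
  rw [coeff_C_mul]
  by_cases hm : m ∈ g.support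
  · rw [← Finset.mul_prod_erase _ _ hm]
    refine ⟨a (coeff m g) * ∏ m ∈ g.support.erase m, b (coeff m g), ?_⟩
    push_cast
    rw [← hab]
    ring
  · rw [notMem_support_iff.mp hm, mul_zero]
    exact ⟨0, Int.cast_zero⟩

/-- Over a prime field all algebras of finite type are covered. -/
theorem prime_case {P : Sch k → Prop} {sep : Prop} (hk : (⊥ : Subfield k) = ⊤) (hP : Uni sep P)
    (hH : ∀ (a b c : ℕ) (H : Finset (Fin a × Fin b × Fin c)), P (aff k (Trip k H)))
    (A : Type) [CommRing A] [Algebra k A] [Algebra.FiniteType k A] : P (aff k A) := by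
  classical
  obtain ⟨n, φ, G, hs, hK, -⟩ := presents_univ (R := k) A
  choose b hb hz using fun g : MvPolynomial (Fin n) k => clear_of_prime hk g
  refine int_case hP hH φ (G.image fun g => C (b g) * g) hs ?_ ?_
  · rw [hK, Finset.coe_image]
    apply le_antisymm
    · rw [Ideal.span_le]
      intro g hg
      have h1 : g = C (b g)⁻¹ * (C (b g) * g) := by
        rw [← mul_assoc, ← C_mul, inv_mul_cancel₀ (hb g), C_1, one_mul]
      rw [SetLike.mem_coe, h1]
      exact Ideal.mul_mem_left _ _ (Ideal.subset_span ⟨g, hg, rfl⟩)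
    · rw [Ideal.span_le]
      rintro _ ⟨g, hg, rfl⟩
      exact Ideal.mul_mem_left _ _ (Ideal.subset_span hg)
  · intro g hg m
    obtain ⟨g, -, rfl⟩ := Finset.mem_image.mp hg
    exact hz g m

end prime

end Pool.Agent.L5helper70.GH
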