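import Pool.Agent.L5helper70.GH.Corank

/-!
# Orthogonality relations from the complements of graph hypersurfaces
-/

set_option autoImplicit false
set_option linter.unusedVariables false
set_option maxHeartbeats 1000000

open CategoryTheory AlgebraicGeometry MvPolynomial Pool.Agent.Y116.UV Pool.Agent.Z125.UN
  Pool.Agent.L5helper70.QF

open scoped Matrix

namespace Pool.Agent.L5helper70.GH

lemma Rp.ops {R : Type} [CommRing R] {σ : Type} {Φ : Cond R σ} (h : Rp Φ) {ι : Type} [Fintype ι]
    (e : ι → MvPolynomial σ R) :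
    Rp (fun C _ _ v => Φ C v ∧ ∀ i, IsUnit (aeval v (e i)) : Cond R σ) := by
  refine (h.op (∏ i, e i)).congr ?_
  intro C _ _ v
  rw [map_prod, IsUnit.prod_univ_iff]

section

variable {R : Type} [CommRing R] {P : Sch R → Prop} {sep : Prop} {J K : Type} [Fintype J]
  [DecidableEq J] [Fintype K] [DecidableEq K]

/-- the condition on the diagonal form and the vectors -/
def BS (s : J → K → Prop) (t : K → K → Prop) (p : J → K) : Cond R (J ⊕ J × K) :=
  fun C _ _ v => BSp s t p v

omit [DecidableEq J] [DecidableEq K] in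
lemma rp_bs (s : J → K → Prop) (t : K → K → Prop) (p : J → K) :
    Rp (BS (R := R) s t p) := by
  refine ((Rp.ops (Rp.ops (rp_true R (J ⊕ J × K)) (fun j => X (Sum.inl j)))
    (fun j => X (Sum.inr (j, p j)))).cls (κ := {q : J × K // ¬ s q.1 q.2} ⊕
      {q : K × K // ¬ t q.1 q.2}) (Sum.elim (fun q => X (Sum.inr q.1))
        fun q => ∑ j, X (Sum.inr (j, q.1.1)) * X (Sum.inl j) * X (Sum.inr (j, q.1.2)))).congr ?_
  intro C _ _ v
  simp only [aeval_X, Sum.forall, Sum.elim_inl, Sum.elim_inr, Subtype.forall, Prod.forall, map_sum,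
    map_mul, BS, BSp, true_and]
  constructor
  · rintro ⟨⟨h1, h2⟩, h3, h4⟩
    exact ⟨h1, h3, h2, h4⟩
  · rintro ⟨h1, h3, h2, h4⟩
    exact ⟨⟨h1, h2⟩, h3, h4⟩

/-- the matrix given by the coordinates -/
def mo {C V : Type} (v : V × V → C) : Matrix V V C := fun i j => v (i, j)

variable (hP : Bnd sep P)

include hP

lemma ip_units (hY : GC (R := R) P) (p : J → K) (t : K → K → Prop) (ht : ∀ k, t k k)
    (ht' : ∀ k k', t k k' → t k' k) (F : Finset J) : ∀ (s : J → K → Prop),
    Pr P (fun C _ _ v => IP (R := R) (pE s t) bd bd C v ∧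
      ∀ j ∈ F, IsUnit (mx v (Sum.inl (Sum.inl j)) (Sum.inl (Sum.inr (p j)))) :
        Cond R (((J ⊕ K) ⊕ K) × ((J ⊕ K) ⊕ K) ⊕ ((J ⊕ K) ⊕ K) × ((J ⊕ K) ⊕ K))) := by
  classical
  induction F using Finset.induction_on with
  | empty =>
    intro s
    refine (ip_all hP hY _ _ rfl (pE s t) (pE_refl s t ht) (pE_symm s t ht') bd ?_ bd
      fun _ h => h).congr ?_
    · rintro (i | k) h j
      · exact h.elim
      · exact trivial
    · intro C _ _ v
      simp only [Finset.notMem_empty, false_implies, implies_true, and_true]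
  | insert j F hj ih =>
    intro s
    have h1 := ih fun j' k => s j' k ∧ ¬ (j' = j ∧ k = p j)
    refine ((ih s).opn hP (X (Sum.inl (Sum.inl (Sum.inl j), Sum.inl (Sum.inr (p j)))))
      (h1.congr ?_)).congr ?_
    · intro C _ _ v
      rw [aeval_X]
      constructor
      · rintro ⟨⟨h3, h4, h5, h6⟩, h7⟩
        refine ⟨⟨⟨h3, ?_, h5, h6⟩, h7⟩, ?_⟩
        · intro a b hab
          refine h4 a b fun hc => hab ?_
          rcases a with (a | a) | a <;> rcases b with (b | b) | b <;>
            first | exact hc | exact hc.1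
        · exact h4 (Sum.inl (Sum.inl j)) (Sum.inl (Sum.inr (p j))) fun hc => hc.2 ⟨rfl, rfl⟩
      · rintro ⟨⟨⟨h3, h4, h5, h6⟩, h7⟩, h8⟩
        refine ⟨⟨h3, ?_, h5, h6⟩, h7⟩
        have h8' : mx v (Sum.inl (Sum.inr (p j))) (Sum.inl (Sum.inl j)) = 0 := by
          rw [← h8]
          exact congrFun (congrFun h3 (Sum.inl (Sum.inl j))) (Sum.inl (Sum.inr (p j)))
        intro a b hab
        rcases a with (a | a) | a <;> rcases b with (b | b) | b
        · exact h4 (Sum.inl (Sum.inl a)) (Sum.inl (Sum.inl b)) hab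
        · by_cases hs : s a b
          · have h9 : a = j ∧ b = p j := by
              by_contra hc
              exact hab ⟨hs, hc⟩
            obtain ⟨rfl, rfl⟩ := h9
            exact h8
          · exact h4 (Sum.inl (Sum.inl a)) (Sum.inl (Sum.inr b)) hs
        · exact absurd trivial hab
        · by_cases hs : s b a
          · have h9 : b = j ∧ a = p j := by
              by_contra hc
              exact hab ⟨hs, hc⟩
            obtain ⟨rfl, rfl⟩ := h9
            exact h8'
          · exact h4 (Sum.inl (Sum.inr a)) (Sum.inl (Sum.inl b)) hs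
        · exact h4 (Sum.inl (Sum.inr a)) (Sum.inl (Sum.inr b)) hab
        · exact absurd trivial hab
        · exact absurd trivial hab
        · exact absurd trivial hab
        · exact absurd trivial hab
    · intro C _ _ v
      rw [aeval_X]
      simp only [Finset.mem_insert, forall_eq_or_imp]
      constructor
      · rintro ⟨⟨h3, h4⟩, h5⟩
        exact ⟨h3, h5, h4⟩
      · rintro ⟨h3, h5, h4⟩
        exact ⟨⟨h3, h4⟩, h5⟩

lemma pr_ipm (hY : GC (R := R) P) (p : J → K) (s : J → K → Prop) (t : K → K → Prop)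
    (ht : ∀ k, t k k) (ht' : ∀ k k', t k k' → t k' k) :
    Pr P (fun C _ _ v => IPM s t p (mo v) : Cond R (((J ⊕ K) ⊕ K) × ((J ⊕ K) ⊕ K))) := by
  refine (ip_units hP hY p t ht ht' Finset.univ s).push (fun q => X (Sum.inl q)) ?_ ?_ ?_
  · intro C _ _ v hv
    obtain ⟨⟨h3, h4, h5, h6⟩, h7⟩ := hv
    have e1 : mo (fun q => aeval v (X (Sum.inl q) : MvPolynomial (((J ⊕ K) ⊕ K) × ((J ⊕ K) ⊕ K) ⊕
        ((J ⊕ K) ⊕ K) × ((J ⊕ K) ⊕ K)) R)) = mx v := by
      ext i j
      exact aeval_X _ _
    change IPM s t p (mo _)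
    rw [e1]
    refine ⟨fun i j => congrFun (congrFun h3 j) i, fun i j hij => h4 i j hij,
      ⟨gx v, h5, ?_⟩, fun j => h7 j (Finset.mem_univ j)⟩
    ext k k'
    exact h6 _ _ trivial trivial
  · intro C _ _ v w hv hw h
    obtain ⟨⟨h3, h4, h5, h6⟩, h7⟩ := hv
    obtain ⟨⟨h3', h4', h5', h6'⟩, h7'⟩ := hw
    have e1 : mx v = mx w := by
      ext i j
      have h8 := h (i, j)
      rwa [aeval_X, aeval_X] at h8
    have e2 : gx v = gx w := by
      rw [← e1] at h5'
      exact inv_uniq h5 h5'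
    rw [← mg_mx_gx v, ← mg_mx_gx w, e1, e2]
  · intro C _ _ v hv
    obtain ⟨h3, h4, ⟨G, h5, h6⟩, h7⟩ := hv
    refine ⟨mg (mo v) G, ⟨⟨?_, h4, h5, ?_⟩, fun j _ => h7 j⟩, ?_⟩
    · ext i j
      exact h3 j i
    · rintro (p | p) (q | q) hp hq
      · exact hp.elim
      · exact hp.elim
      · exact hq.elim
      · exact congrFun (congrFun h6 p) q
    · intro s
      rw [aeval_X]
      rfl

/-- the generic matrix -/
noncomputable def genM (R : Type) [CommRing R] (J K : Type) [Fintype J] [DecidableEq J] :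
    Matrix ((J ⊕ K) ⊕ K) ((J ⊕ K) ⊕ K)
      (MvPolynomial ((J ⊕ J × K) ⊕ ((J ⊕ K) × K ⊕ Sym2 K)) R) := dD X

omit hP [Fintype K] [DecidableEq K] in
lemma genM_map {C : Type} [CommRing C] [Algebra R C]
    (v : (J ⊕ J × K) ⊕ ((J ⊕ K) × K ⊕ Sym2 K) → C) :
    (genM R J K).map (aeval v : MvPolynomial _ R →ₐ[R] C).toRingHom = dD v := by
  rw [genM, dD_map]
  congr 1
  funext s
  exact aeval_X _ _

omit hP [Fintype K] [DecidableEq K] in
lemma genM_mo {C : Type} [CommRing C] [Algebra R C]
    (v : (J ⊕ J × K) ⊕ ((J ⊕ K) × K ⊕ Sym2 K) → C) :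
    mo (fun q => aeval v (genM R J K q.1 q.2)) = dD v := by
  rw [← genM_map (R := R)]
  rfl

omit hP in
lemma genM_det {C : Type} [CommRing C] [Algebra R C]
    (v : (J ⊕ J × K) ⊕ ((J ⊕ K) × K ⊕ Sym2 K) → C) :
    aeval v (genM R J K).det = (dD v).det := by
  rw [← genM_map (R := R)]
  exact RingHom.map_det (aeval v : MvPolynomial _ R →ₐ[R] C).toRingHom _

/-- The orthogonality relations. -/
theorem pr_bs (hX : Sec P) (hY : GC (R := R) P) (p : J → K) (s : J → K → Prop)
    (t : K → K → Prop) (ht : ∀ k, t k k) (ht' : ∀ k k', t k k' → t k' k)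
    (hsp : ∀ j j', s j (p j') → j = j') : Pr P (BS (R := R) s t p) := by
  refine Pr.sect hP hX (τ := (J ⊕ K) × K ⊕ Sym2 K) (rp_bs s t p) (genM R J K).det
    (Sum.elim (fun q => Sum.elim (fun _ => 0) (fun k => if k = q.2 then 1 else 0) q.1)
      fun _ => 0) ?_ ?_
  · intro C _ _ v hv
    rw [genM_det]
    have h1 := dM_section (K := K) (d := fun j => v (Sum.inl j)) hv.1
      (Matrix.of fun j k => v (Sum.inr (j, k)))
    have e1 : (Matrix.of fun i k => aeval v (Sum.elim (fun _ => 0)
        (fun k' => if k' = k then 1 else 0) i : MvPolynomial (J ⊕ J × K) R) :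
          Matrix (J ⊕ K) K C) = Matrix.fromRows 0 1 := by
      ext i k
      rcases i with i | i
      · change aeval v (0 : MvPolynomial (J ⊕ J × K) R) = 0
        rw [map_zero]
      · change aeval v (if i = k then 1 else 0 : MvPolynomial (J ⊕ J × K) R) = (1 : Matrix K K C) i k
        rw [Matrix.one_apply]
        split_ifs
        · rw [map_one]
        · rw [map_zero]
    have e2 : (fun _ : Sym2 K => aeval v (0 : MvPolynomial (J ⊕ J × K) R)) = fun _ => (0 : C) := by
      funext k
      rw [map_zero]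
    rw [← e1, ← e2] at h1
    exact h1
  · refine (pr_ipm hP hY p s t ht ht').pull hP (((rp_bs s t p).free _).op _)
      (fun q => genM R J K q.1 q.2) ?_ ?_ ?_
    · intro C _ _ v hv
      have h5 := hv.2
      rw [genM_det] at h5
      change IPM s t p (mo _)
      rw [genM_mo]
      exact dD_mem hv.1 h5
    · intro C _ _ v w hv hw hvw
      refine dD_inj hv.1.1 ?_
      rw [← genM_mo (R := R), ← genM_mo (R := R)]
      congr 1
      funext q
      exact hvw q
    · intro C _ _ m hm
      obtain ⟨v, h1, h2, h3⟩ := dD_surj hsp hm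
      refine ⟨v, ⟨h1, ?_⟩, ?_⟩
      · rw [genM_det]
        exact h2
      · intro q
        have h4 := genM_mo (R := R) v
        rw [h3] at h4
        exact congrFun (congrFun h4 q.1) q.2

end

end Pool.Agent.L5helper70.GH
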