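import Pool.Agent.L5helper70.QF.Tors

/-!
# Open subschemes of affine spaces over a base that contain a section
-/

set_option autoImplicit false
set_option linter.unusedVariables false

open CategoryTheory AlgebraicGeometry MvPolynomial Pool.Agent.Y116.UV Pool.Agent.Z125.UN
  Pool.Agent.L5helper70.QF

namespace Pool.Agent.L5helper70.GH

variable {R : Type} [CommRing R]

/-- Descent from the open subscheme `g ≠ 0` of the affine space over `Spec A` to `Spec A`, if there
is a section `p` for which `g(p)` is invertible. -/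
structure Sec (P : Sch R → Prop) : Prop where
  sect : ∀ (A : Type) [CommRing A] [Algebra R A] [Algebra.FiniteType R A] (n : ℕ)
    (g : MvPolynomial (Fin n) A) (p : Fin n → A), IsUnit (eval p g) →
    P (aff R (Localization.Away g)) → P (aff R A)

section

variable {P : Sch R → Prop} {sep : Prop} (hP : Bnd sep P)

include hP

/-- free variables, some of them equal to zero -/
lemma addfree {σ ρ : Type} [Finite ρ] {Φ : Cond R σ} (h : Pr P Φ) (z : ρ → Prop) :
    Pr P (fun C _ _ v => Φ C (fun s => v (Sum.inl s)) ∧ ∀ r, z r → v (Sum.inr r) = 0 :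
      Cond R (σ ⊕ ρ)) := by
  classical
  refine (h.free hP {r : ρ // ¬ z r}).push (Sum.elim (fun s => X (Sum.inl s))
    fun r => if hr : z r then 0 else X (Sum.inr ⟨r, hr⟩)) ?_ ?_ ?_
  · intro C _ _ v hv
    simp only [Sum.elim_inl, Sum.elim_inr, aeval_X]
    refine ⟨hv, fun r hr => ?_⟩
    rw [dif_pos hr, map_zero]
  · intro C _ _ v w _ _ h
    funext s
    rcases s with s | ⟨r, hr⟩
    · simpa only [Sum.elim_inl, aeval_X] using h (Sum.inl s)
    · have h1 := h (Sum.inr r)
      rwa [Sum.elim_inr, dif_neg hr, aeval_X, aeval_X] at h1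
  · intro C _ _ v hv
    refine ⟨Sum.elim (fun s => v (Sum.inl s)) fun r => v (Sum.inr r.1), hv.1, ?_⟩
    rintro (s | r)
    · simp only [Sum.elim_inl, aeval_X]
    · rw [Sum.elim_inr]
      by_cases hr : z r
      · rw [dif_pos hr, map_zero, hv.2 r hr]
      · rw [dif_neg hr, aeval_X, Sum.elim_inr]

/-- an invertible variable -/
lemma addunit {σ : Type} {Φ : Cond R σ} (h : Pr P Φ) :
    Pr P (fun C _ _ v => Φ C (fun s => v (Sum.inl s)) ∧ IsUnit (v (Sum.inr ())) :
      Cond R (σ ⊕ Unit)) := by
  have h1 := h.free hP Unit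
  have h2 := addfree hP h (ρ := Unit) fun _ => True
  refine (h1.opn hP (X (Sum.inr ())) (h2.congr ?_)).congr ?_
  · intro C _ _ v
    rw [aeval_X]
    exact and_congr_right fun _ => ⟨fun h => h () trivial, fun h r _ => h⟩
  · intro C _ _ v
    rw [aeval_X]

/-- a variable and its inverse -/
lemma addpair {σ : Type} {Φ : Cond R σ} (h : Pr P Φ) :
    Pr P (fun C _ _ v => Φ C (fun s => v (Sum.inl s)) ∧ v (Sum.inr true) * v (Sum.inr false) = 1 :
      Cond R (σ ⊕ Bool)) := by
  have hr : Rp (fun C _ _ v => Φ C (fun s => v (Sum.inl s)) ∧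
      v (Sum.inr true) * v (Sum.inr false) = 1 : Cond R (σ ⊕ Bool)) := by
    refine ((h.rp.free Bool).cl (X (Sum.inr true) * X (Sum.inr false) - 1)).congr ?_
    intro C _ _ v
    simp only [map_sub, map_mul, map_one, aeval_X, sub_eq_zero]
  refine (addunit hP h).pull hP hr (Sum.elim (fun s => X (Sum.inl s)) fun _ => X (Sum.inr true))
    ?_ ?_ ?_
  · intro C _ _ v hv
    simp only [Sum.elim_inl, Sum.elim_inr, aeval_X]
    exact ⟨hv.1, IsUnit.of_mul_eq_one _ hv.2⟩
  · intro C _ _ v w hv hw h
    have h1 : v (Sum.inr true) = w (Sum.inr true) := by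
      simpa only [Sum.elim_inr, aeval_X] using h (Sum.inr ())
    funext s
    rcases s with s | b
    · simpa only [Sum.elim_inl, aeval_X] using h (Sum.inl s)
    · cases b
      · have h2 := hv.2
        have h3 := hw.2
        rw [← h1] at h3
        exact (IsUnit.of_mul_eq_one _ h2).mul_left_cancel (h2.trans h3.symm)
      · exact h1
  · intro C _ _ v hv
    obtain ⟨y, hy⟩ := hv.2.exists_right_inv
    refine ⟨Sum.elim (fun s => v (Sum.inl s)) fun b => if b then v (Sum.inr ()) else y,
      ⟨hv.1, ?_⟩, ?_⟩
    · simp only [Sum.elim_inr, if_true]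
      exact hy
    · rintro (s | ⟨⟩)
      · simp only [Sum.elim_inl, aeval_X]
      · simp only [Sum.elim_inr, aeval_X, if_true]

variable (hX : Sec P)

include hX

/-- Descent along open subschemes of affine spaces over the base that contain a section. -/
lemma Pr.sect {σ τ : Type} [Finite τ] {Φ : Cond R σ} (hr : Rp Φ) (g : MvPolynomial (σ ⊕ τ) R)
    (s : τ → MvPolynomial σ R)
    (hs : ∀ (C : Type) [CommRing C] [Algebra R C] (v : σ → C), Φ C v →
      IsUnit (aeval (Sum.elim v fun t => aeval v (s t)) g))
    (h : Pr P (fun C _ _ v => Φ C (fun s => v (Sum.inl s)) ∧ IsUnit (aeval v g) :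
      Cond R (σ ⊕ τ))) : Pr P Φ := by
  obtain ⟨A, _, _, _, x, h1⟩ := hr
  have := Fintype.ofFinite τ
  let e := Fintype.equivFin τ
  have i1 : Algebra.FiniteType R (MvPolynomial τ A) :=
    Algebra.FiniteType.trans (S := A) inferInstance inferInstance
  have i2 : Algebra.FiniteType R (MvPolynomial (Fin (Fintype.card τ)) A) :=
    Algebra.FiniteType.trans (S := A) inferInstance inferInstance
  have h2 := (h1.poly τ).opened g
  have i3 : Algebra.FiniteType R (Localization.Away (aeval (Sum.elim (fun s => MvPolynomial.C (x s)) X :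
      σ ⊕ τ → MvPolynomial τ A) g)) :=
    Algebra.FiniteType.trans (S := MvPolynomial τ A) inferInstance inferInstance
  rw [pr_iff hP h2] at h
  rw [pr_iff hP h1]
  -- the polynomial in the variables `Fin n`
  let G : MvPolynomial τ A := aeval (Sum.elim (fun s => MvPolynomial.C (x s)) X :
      σ ⊕ τ → MvPolynomial τ A) g
  have h3 : P (aff R (Localization.Away (rename e G))) := by
    refine iso_alg hP.toUni (IsLocalization.algEquivOfAlgEquiv (Localization.Away G)
      (Localization.Away (rename e G)) ((renameEquiv A e).restrictScalars R)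
        (M := Submonoid.powers G) (T := Submonoid.powers (rename e G)) ?_) h
    rw [Submonoid.map_powers]
    rfl
  refine hX.sect A _ (rename e G) (fun i => aeval x (s (e.symm i))) ?_ h3
  rw [eval_rename]
  have h4 : eval ((fun i => aeval x (s (e.symm i))) ∘ e) G =
      aeval (Sum.elim x fun t => aeval x (s t)) g := by
    have h5 : ((aeval ((fun i => aeval x (s (e.symm i))) ∘ e) : MvPolynomial τ A →ₐ[A] A).restrictScalars
        R).comp (aeval (Sum.elim (fun s => MvPolynomial.C (x s)) X : σ ⊕ τ → MvPolynomial τ A)) =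
        aeval (Sum.elim x fun t => aeval x (s t)) := by
      apply MvPolynomial.algHom_ext
      rintro (t | t)
      · rw [AlgHom.comp_apply, aeval_X, aeval_X, Sum.elim_inl, Sum.elim_inl]
        change aeval _ (MvPolynomial.C (x t)) = _
        rw [algHom_C]
        rfl
      · rw [AlgHom.comp_apply, aeval_X, aeval_X, Sum.elim_inr, Sum.elim_inr]
        change aeval _ (X t) = _
        rw [aeval_X, Function.comp_apply, Equiv.symm_apply_apply]
    exact congrArg (fun f : MvPolynomial (σ ⊕ τ) R →ₐ[R] A => f g) h5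
  rw [h4]
  exact hs A x h1.gen

end

end Pool.Agent.L5helper70.GH
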