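import Pool.Agent.L5helper70.GH.Blk

/-!
# Stratification of the pairs of inverse symmetric matrices
-/

set_option autoImplicit false
set_option linter.unusedVariables false

open CategoryTheory AlgebraicGeometry MvPolynomial Pool.Agent.Y116.UV Pool.Agent.Z125.UN
  Pool.Agent.L5helper70.QF

open scoped Matrix

namespace Pool.Agent.L5helper70.GH

section matrix

variable {C : Type} [CommRing C] {V W : Type} [Fintype V] [DecidableEq V] [Fintype W]
  [DecidableEq W]

lemma sub_mul_one (e : V ≃ W) (A B : Matrix W W C) :
    A.submatrix e e * B.submatrix e e = 1 ↔ A * B = 1 := by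
  rw [Matrix.submatrix_mul_equiv]
  constructor
  · intro h
    ext i j
    obtain ⟨i, rfl⟩ := e.surjective i
    obtain ⟨j, rfl⟩ := e.surjective j
    have h1 := congrFun (congrFun h i) j
    rw [Matrix.submatrix_apply] at h1
    rw [h1, Matrix.one_apply, Matrix.one_apply]
    simp only [e.injective.eq_iff]
  · intro h
    rw [h, Matrix.submatrix_one_equiv]

end matrix

section

variable {R : Type} [CommRing R] {P : Sch R → Prop} {sep : Prop} (hP : Bnd sep P)

include hP

lemma shape1 : Shape P Unit Bool (fun C _ _ v => v true * v false = 1 : Cond R Bool)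
    (fun _ _ => X true) (fun _ _ => X false) (fun C _ _ T₀ => IsUnit (T₀ () ())) where
  prod h := addpair hP h
  inv C _ _ v hv := by
    ext i j
    rw [Matrix.mul_apply, Fintype.sum_unique]
    change aeval v (X true) * aeval v (X false) = _
    rw [aeval_X, aeval_X]
    exact hv
  symS C _ _ v hv := rfl
  symT C _ _ v hv := rfl
  shape C _ _ v hv := by
    change IsUnit (aeval v (X false))
    rw [aeval_X]
    exact IsUnit.of_mul_eq_one_right _ hv
  surj C _ _ T₀ hT h := by
    obtain ⟨y, hy⟩ := h.exists_left_inv
    refine ⟨fun b => if b then y else T₀ () (), ?_, ?_⟩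
    · simp only [if_true, Bool.false_eq_true, if_false]
      exact hy
    · ext i j
      change aeval _ (X false) = _
      rw [aeval_X]
      rfl
  inj C _ _ v w hv hw h := by
    have h1 : v false = w false := by
      have h2 := congrFun (congrFun h ()) ()
      change aeval v (X false) = aeval w (X false) at h2
      rwa [aeval_X, aeval_X] at h2
    funext b
    cases b
    · exact h1
    · rw [← h1] at hw
      exact (IsUnit.of_mul_eq_one_right _ hv).mul_right_cancel (hv.trans hw.symm)

/-- the matrix `S` of the second shape -/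
noncomputable def s2 : Matrix Bool Bool (MvPolynomial (Bool ⊕ Unit) R) := fun i j =>
  if i then (if j then -(X (Sum.inr ()) * X (Sum.inl true) ^ 2) else X (Sum.inl true))
    else (if j then X (Sum.inl true) else 0)

/-- the matrix `T` of the second shape -/
noncomputable def t2 : Matrix Bool Bool (MvPolynomial (Bool ⊕ Unit) R) := fun i j =>
  if i then (if j then 0 else X (Sum.inl false))
    else (if j then X (Sum.inl false) else X (Sum.inr ()))

lemma shape2 : Shape P Bool (Bool ⊕ Unit)
    (fun C _ _ v => v (Sum.inl true) * v (Sum.inl false) = 1 : Cond R (Bool ⊕ Unit)) s2 t2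
    (fun C _ _ T₀ => T₀ true true = 0 ∧ IsUnit (T₀ true false)) where
  prod h := ((addpair hP h).free hP Unit).reindex (Equiv.sumAssoc _ _ _)
  inv C _ _ v hv := by
    ext i j
    rw [Matrix.mul_apply, Fintype.sum_bool]
    cases i <;> cases j <;> simp [em, s2, t2]
    · exact hv
    · linear_combination (-v (Sum.inr ()) * v (Sum.inl true)) * hv
    · exact hv
  symS C _ _ v hv := by
    ext i j
    cases i <;> cases j <;> rfl
  symT C _ _ v hv := by
    ext i j
    cases i <;> cases j <;> rfl
  shape C _ _ v hv := by
    constructor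
    · simp [em, t2]
    · simp only [em, t2, if_true, Bool.false_eq_true, if_false, aeval_X]
      exact IsUnit.of_mul_eq_one_right _ hv
  surj C _ _ T₀ hT h := by
    obtain ⟨y, hy⟩ := h.2.exists_left_inv
    refine ⟨Sum.elim (fun b => if b then y else T₀ true false) fun _ => T₀ false false, ?_, ?_⟩
    · simp only [Sum.elim_inl, if_true, Bool.false_eq_true, if_false]
      exact hy
    · have h1 : T₀ false true = T₀ true false := congrFun (congrFun hT true) false
      ext i j
      cases i <;> cases j <;> simp [em, t2, h1, h.1]
  inj C _ _ v w hv hw h := by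
    have h1 : v (Sum.inl false) = w (Sum.inl false) := by
      have h2 := congrFun (congrFun h true) false
      simpa [em, t2] using h2
    have h3 : v (Sum.inr ()) = w (Sum.inr ()) := by
      have h2 := congrFun (congrFun h false) false
      simpa [em, t2] using h2
    funext b
    rcases b with (_ | _) | ⟨⟩
    · exact h1
    · rw [← h1] at hw
      exact (IsUnit.of_mul_eq_one_right _ hv).mul_right_cancel (hv.trans hw.symm)
    · exact h3

/-- the decomposition along an equivalence -/
theorem blkV {V V' K ρ : Type} [Fintype V] [DecidableEq V] [Fintype V'] [DecidableEq V']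
    [Fintype K] [DecidableEq K]
    {Ω : Cond R ρ} {S T : Matrix K K (MvPolynomial ρ R)}
    {Λ : ∀ (C : Type) [CommRing C] [Algebra R C], Matrix K K C → Prop} (hS : Shape P K ρ Ω S T Λ)
    (e : V' ⊕ K ≃ V) {E : V → V → Prop} {Zs Ts : V → Prop}
    (h : Pr P (IP (R := R) (fun i j => E (e (Sum.inl i)) (e (Sum.inl j)))
      (fun i => Zs (e (Sum.inl i))) (fun i => Ts (e (Sum.inl i)))))
    (hE : ∀ κ i, E (e (Sum.inr κ)) i) (hE' : ∀ κ i, E i (e (Sum.inr κ)))
    (hZ : ∀ κ, ¬ Zs (e (Sum.inr κ))) (hT : ∀ κ, Ts (e (Sum.inr κ))) (Y : K → V' → Prop)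
    (z : V' → K → Prop)
    (hz : ∀ (C : Type) [CommRing C] [Algebra R C] (T₀ : Matrix K K C) (B : Matrix V' K C),
      T₀ᵀ = T₀ → Λ C T₀ → (∀ q κ, Zs (e (Sum.inl q)) → B q κ = 0) →
        ((∀ κ q, Y κ q → (T₀ * Bᵀ) κ q = 0) ↔ ∀ q κ, z q κ → B q κ = 0)) :
    Pr P (fun C _ _ v => IP (R := R) E Zs Ts C v ∧
      Λ C (fun κ κ' => gx v (e (Sum.inr κ)) (e (Sum.inr κ'))) ∧
      ∀ κ q, Y κ q → gx v (e (Sum.inr κ)) (e (Sum.inl q)) = 0 :
        Cond R (V × V ⊕ V × V)) := by
  refine ((blk hP hS h Y z hz).reindex
    ((Equiv.prodCongr e e).sumCongr (Equiv.prodCongr e e))).congr ?_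
  intro C _ _ v
  have hm : (mx fun s => v (((Equiv.prodCongr e e).sumCongr (Equiv.prodCongr e e)) s)) =
      (mx v).submatrix e e := rfl
  have hg : (gx fun s => v (((Equiv.prodCongr e e).sumCongr (Equiv.prodCongr e e)) s)) =
      (gx v).submatrix e e := rfl
  have h1 : IP (R := R) (sE fun i j => E (e (Sum.inl i)) (e (Sum.inl j)))
      (Sum.elim (fun i => Zs (e (Sum.inl i))) fun _ => False)
      (Sum.elim (fun i => Ts (e (Sum.inl i))) fun _ => True) C
        (fun s => v (((Equiv.prodCongr e e).sumCongr (Equiv.prodCongr e e)) s)) ↔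
      IP (R := R) E Zs Ts C v := by
    rw [IP, IP, hm, hg, sub_mul_one]
    have a1 : ((mx v).submatrix e e)ᵀ = (mx v).submatrix e e ↔ (mx v)ᵀ = mx v := by
      constructor
      · intro h
        ext i j
        obtain ⟨i, rfl⟩ := e.surjective i
        obtain ⟨j, rfl⟩ := e.surjective j
        exact congrFun (congrFun h i) j
      · intro h
        rw [Matrix.transpose_submatrix, h]
    have a2 : (∀ i j, ¬ sE (fun i j => E (e (Sum.inl i)) (e (Sum.inl j))) i j →
        (mx v).submatrix e e i j = 0) ↔ ∀ i j, ¬ E i j → mx v i j = 0 := by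
      constructor
      · intro h i j hij
        obtain ⟨i, rfl⟩ := e.surjective i
        obtain ⟨j, rfl⟩ := e.surjective j
        rcases i with i | i
        · rcases j with j | j
          · exact h (Sum.inl i) (Sum.inl j) hij
          · exact absurd (hE' _ _) hij
        · exact absurd (hE _ _) hij
      · rintro h (i | i) (j | j) hij
        · exact h _ _ hij
        · exact absurd trivial hij
        · exact absurd trivial hij
        · exact absurd trivial hij
    have a3 : (∀ p q, Sum.elim (fun i => Zs (e (Sum.inl i))) (fun _ => False) p →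
        Sum.elim (fun i => Ts (e (Sum.inl i))) (fun _ => True) q →
          (gx v).submatrix e e p q = 0) ↔ ∀ p q, Zs p → Ts q → gx v p q = 0 := by
      constructor
      · intro h p q hp hq
        obtain ⟨p, rfl⟩ := e.surjective p
        obtain ⟨q, rfl⟩ := e.surjective q
        rcases p with p | p
        · rcases q with q | q
          · exact h (Sum.inl p) (Sum.inl q) hp hq
          · exact h (Sum.inl p) (Sum.inr q) hp trivial
        · exact absurd hp (hZ _)
      · rintro h (p | p) (q | q) hp hq
        · exact h _ _ hp hq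
        · exact h _ _ hp (hT _)
        · exact hp.elim
        · exact hp.elim
    rw [a1, a2, a3]
  refine and_congr h1 ?_
  rw [hg]
  rfl

end

section

variable {V K : Type}

/-- the complement of the image of `K` and `K` -/
noncomputable def ek (k : K → V) (hk : Function.Injective k) :
    {x : V // x ∉ Set.range k} ⊕ K ≃ V :=
  Equiv.ofBijective (Sum.elim Subtype.val k) (by
    constructor
    · rintro (⟨x, hx⟩ | x) (⟨y, hy⟩ | y) h
      · have h1 : x = y := h
        subst h1
        rfl
      · have h1 : x = k y := h
        exact absurd ⟨y, h1.symm⟩ hx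
      · have h1 : k x = y := h
        exact absurd ⟨x, h1⟩ hy
      · have h1 : k x = k y := h
        rw [hk h1]
    · intro x
      by_cases hx : x ∈ Set.range k
      · obtain ⟨y, rfl⟩ := hx
        exact ⟨Sum.inr y, rfl⟩
      · exact ⟨Sum.inl ⟨x, hx⟩, rfl⟩)

lemma ek_inl (k : K → V) (hk : Function.Injective k) (x : {x : V // x ∉ Set.range k}) :
    ek k hk (Sum.inl x) = x.1 := rfl

lemma ek_inr (k : K → V) (hk : Function.Injective k) (x : K) : ek k hk (Sum.inr x) = k x := rfl

end

section

variable {R : Type} [CommRing R] {P : Sch R → Prop} {sep : Prop} (hP : Bnd sep P)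

include hP

/-- The complements of the graph hypersurfaces (in any type of vertices), with the inverse matrix. -/
def GC (P : Sch R → Prop) : Prop :=
  ∀ (V : Type) [Fintype V] [DecidableEq V] (E : V → V → Prop), (∀ i, E i i) →
    (∀ i j, E i j → E j i) → Pr P (IP (R := R) E (fun _ => False) (fun _ => False))

/-- Blocks of zeros in the inverse matrix, for vertices that are adjacent to all vertices. -/
theorem ip_all (hY : GC (R := R) P) (n : ℕ) : ∀ (V : Type) [Fintype V] [DecidableEq V],
    Fintype.card V = n → ∀ (E : V → V → Prop), (∀ i, E i i) → (∀ i j, E i j → E j i) →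
      ∀ (Ts : V → Prop), (∀ t, Ts t → ∀ i, E t i) → ∀ (Zs : V → Prop), (∀ z, Zs z → Ts z) →
        Pr P (IP (R := R) E Zs Ts) := by
  classical
  induction n using Nat.strong_induction_on with
  | _ n ihn =>
  intro V _ _ hn E hr hs Ts hT
  -- the strata
  have hst : ∀ {K ρ : Type} [Fintype K] [DecidableEq K] [Nonempty K]
      {Ω : Cond R ρ} {S T : Matrix K K (MvPolynomial ρ R)}
      {Λ : ∀ (C : Type) [CommRing C] [Algebra R C], Matrix K K C → Prop}
      (hS : Shape P K ρ Ω S T Λ) (k : K → V) (hk : Function.Injective k)
      (Zs : V → Prop) (hZs : ∀ z, Zs z → Ts z) (hkZ : ∀ κ, ¬ Zs (k κ)) (hkT : ∀ κ, Ts (k κ))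
      (Y : K → {x : V // x ∉ Set.range k} → Prop) (z : {x : V // x ∉ Set.range k} → K → Prop)
      (hz : ∀ (C : Type) [CommRing C] [Algebra R C] (T₀ : Matrix K K C)
        (B : Matrix {x : V // x ∉ Set.range k} K C),
        T₀ᵀ = T₀ → Λ C T₀ → (∀ q κ, Zs q.1 → B q κ = 0) →
        ((∀ κ q, Y κ q → (T₀ * Bᵀ) κ q = 0) ↔ ∀ q κ, z q κ → B q κ = 0)),
      Pr P (fun C _ _ v => IP (R := R) E Zs Ts C v ∧
        Λ C (fun κ κ' => gx v (k κ) (k κ')) ∧
        ∀ κ q, Y κ q → gx v (k κ) q.1 = 0 : Cond R (V × V ⊕ V × V)) := by
    intro K ρ _ _ _ Ω S T Λ hS k hk Zs hZs hkZ hkT Y z hz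
    have hlt : Fintype.card {x : V // x ∉ Set.range k} < n := by
      rw [← hn]
      obtain ⟨κ⟩ := (inferInstance : Nonempty K)
      exact Fintype.card_subtype_lt (x := k κ) (not_not.mpr ⟨κ, rfl⟩)
    refine blkV hP hS (ek k hk) (ihn _ hlt {x : V // x ∉ Set.range k} rfl _ (fun i => hr _)
      (fun i j h => hs _ _ h) _ (fun t ht i => hT _ ht _) _ fun z hz => hZs _ hz)
      (fun κ i => hT _ (hkT κ) i) (fun κ i => hs _ _ (hT _ (hkT κ) i)) hkZ hkT Y z hz
  have key : ∀ Z : Finset V, (∀ z ∈ Z, Ts z) → Pr P (IP (R := R) E (fun z => z ∈ Z) Ts) := by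
    intro Z
    induction Z using Finset.induction_on with
    | empty =>
      intro _
      refine (hY V E hr hs).congr ?_
      intro C _ _ v
      simp only [IP, Finset.notMem_empty, false_implies, implies_true]
    | insert a Z ha ihZ =>
      intro hZ
      have ihZ := ihZ fun z hz => hZ z (Finset.mem_insert_of_mem hz)
      have haT := hZ a (Finset.mem_insert_self _ _)
      have hZT : ∀ z, z ∈ Z → Ts z := fun z hz => hZ z (Finset.mem_insert_of_mem hz)
      -- one row of zeros
      have hW : ∀ W : Finset V, (∀ w ∈ W, Ts w ∧ w ∉ Z ∧ w ≠ a) →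
          Pr P (fun C _ _ v => IP (R := R) E (fun z => z ∈ Z) Ts C v ∧ gx v a a = 0 ∧
            ∀ w ∈ W, gx v a w = 0 : Cond R (V × V ⊕ V × V)) := by
        intro W
        induction W using Finset.induction_on with
        | empty =>
          intro _
          have h1 := hst (shape1 hP) (fun _ : Unit => a) (fun _ _ _ => rfl) (fun z => z ∈ Z) hZT
            (fun _ => ha) (fun _ => haT) (fun _ _ => False) (fun _ _ => False) (by
              intro C _ _ T₀ B _ _ _
              simp only [false_implies, implies_true])
          have h2 := ihZ.clo hP (X (Sum.inr (a, a))) (h1.congr (by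
            intro C _ _ v
            rw [aeval_X]
            simp only [false_implies, implies_true, and_true]
            rfl))
          refine h2.congr ?_
          intro C _ _ v
          rw [aeval_X]
          simp only [Finset.notMem_empty, false_implies, implies_true, and_true]
          rfl
        | insert b W hb ihW =>
          intro hW
          have ihW := ihW fun w hw => hW w (Finset.mem_insert_of_mem hw)
          obtain ⟨hbT, hbZ, hba⟩ := hW b (Finset.mem_insert_self _ _)
          have hk : Function.Injective fun c : Bool => if c then a else b := by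
            intro c d hcd
            cases c <;> cases d
            · rfl
            · exact absurd hcd hba
            · exact absurd hcd.symm hba
            · rfl
          have h1 := hst (shape2 hP) (fun c : Bool => if c then a else b) hk (fun z => z ∈ Z) hZT
            (fun c => by
              cases c
              · exact hbZ
              · exact ha)
            (fun c => by
              cases c
              · exact hbT
              · exact haT)
            (fun c q => c = true ∧ q.1 ∈ W) (fun q c => c = false ∧ q.1 ∈ W) (by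
              intro C _ _ T₀ B hs ht _
              have h3 : ∀ q, (T₀ * Bᵀ) true q = T₀ true false * B q false := by
                intro q
                rw [Matrix.mul_apply, Fintype.sum_bool, ht.1, zero_mul, zero_add]
                rfl
              constructor
              · rintro h q c ⟨rfl, hq⟩
                have h4 := h true q ⟨rfl, hq⟩
                rw [h3] at h4
                exact ht.2.mul_right_eq_zero.mp h4
              · rintro h c q ⟨rfl, hq⟩
                rw [h3, h q false ⟨rfl, hq⟩, mul_zero])
          have h2 := ihW.clo hP (X (Sum.inr (a, b))) (h1.congr (by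
            intro C _ _ v
            rw [aeval_X]
            constructor
            · rintro ⟨h3, ⟨h4, h5⟩, h6⟩
              refine ⟨⟨h3, h4, fun w hw => ?_⟩, h5⟩
              have hwb : w ≠ b := fun h => hb (h ▸ hw)
              have hwa : w ≠ a := (hW w (Finset.mem_insert_of_mem hw)).2.2
              exact h6 true ⟨w, by
                rintro ⟨c, hc⟩
                cases c
                · exact hwb hc.symm
                · exact hwa hc.symm⟩ ⟨rfl, hw⟩
            · rintro ⟨⟨h3, h4, h6⟩, h5⟩
              refine ⟨h3, ⟨h4, h5⟩, ?_⟩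
              rintro c q ⟨rfl, hq⟩
              exact h6 q.1 hq))
          refine h2.congr ?_
          intro C _ _ v
          rw [aeval_X]
          simp only [Finset.mem_insert, forall_eq_or_imp]
          constructor
          · rintro ⟨⟨h3, h4, h5⟩, h6⟩
            exact ⟨h3, h4, h6, h5⟩
          · rintro ⟨h3, h4, h6, h5⟩
            exact ⟨⟨h3, h4, h5⟩, h6⟩
      have h1 := hW (Finset.univ.filter fun w => Ts w ∧ w ∉ Z ∧ w ≠ a) (by
        intro w hw
        exact (Finset.mem_filter.mp hw).2)
      refine h1.congr ?_
      intro C _ _ v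
      constructor
      · rintro ⟨⟨h3, h4, h5, h6⟩, h7, h8⟩
        refine ⟨h3, h4, h5, ?_⟩
        intro p q hp hq
        rcases Finset.mem_insert.mp hp with rfl | hp
        · by_cases hqa : q = p
          · rw [hqa]
            exact h7
          · by_cases hqZ : q ∈ Z
            · have h9 := inv_symm h3 h5
              have h10 : gx v p q = gx v q p := congrFun (congrFun h9 q) p
              rw [h10]
              exact h6 q p hqZ haT
            · exact h8 q (Finset.mem_filter.mpr ⟨Finset.mem_univ _, hq, hqZ, hqa⟩)
        · exact h6 p q hp hq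
      · rintro ⟨h3, h4, h5, h6⟩
        refine ⟨⟨h3, h4, h5, fun p q hp hq => h6 p q (Finset.mem_insert_of_mem hp) hq⟩,
          h6 a a (Finset.mem_insert_self _ _) haT, fun w hw => ?_⟩
        exact h6 a w (Finset.mem_insert_self _ _) (Finset.mem_filter.mp hw).2.1
  intro Zs hZs
  refine (key (Finset.univ.filter Zs) fun z hz => hZs z (Finset.mem_filter.mp hz).2).congr ?_
  intro C _ _ v
  simp only [IP, Finset.mem_filter, Finset.mem_univ, true_and]

end

end Pool.Agent.L5helper70.GH
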